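import Pool.Agent.Lib.MP_ec92e0_co.Key

set_option autoImplicit false

namespace Pool.Agent.Lib.MP_ec92e0_co

open Finset

variable {W : Type} [Fintype W] [DecidableEq W] (G : SimpleGraph W) [DecidableRel G.Adj]

def hub (D : ℕ) (u : W) : Finset W := (G.neighborFinset u).filter (fun x => D < G.degree x)

def wt (D : ℕ) (u : W) : ℕ := G.degree u + (hub G D u).card

def near (D : ℕ) (u : W) : Finset W :=
  insert u (G.neighborFinset u ∪
    ((G.neighborFinset u).filter (fun z => G.degree z ≤ D)).biUnion (fun z => G.neighborFinset z))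

theorem card_near (D : ℕ) (u : W) (hu : G.degree u ≤ D) :
    (near G D u).card ≤ 1 + D + D * D := by
  unfold near
  have h1 := Finset.card_insert_le u (G.neighborFinset u ∪
    ((G.neighborFinset u).filter (fun z => G.degree z ≤ D)).biUnion (fun z => G.neighborFinset z))
  have h2 := Finset.card_union_le (G.neighborFinset u)
    (((G.neighborFinset u).filter (fun z => G.degree z ≤ D)).biUnion (fun z => G.neighborFinset z))
  have h3 : (((G.neighborFinset u).filter (fun z => G.degree z ≤ D)).biUnion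
      (fun z => G.neighborFinset z)).card ≤ D * D := by
    refine le_trans (Finset.card_biUnion_le_card_mul _ _ D ?_) ?_
    · intro z hz
      rw [SimpleGraph.card_neighborFinset_eq_degree]
      exact (Finset.mem_filter.1 hz).2
    · refine Nat.mul_le_mul_right _ (le_trans (Finset.card_filter_le _ _) ?_)
      rw [SimpleGraph.card_neighborFinset_eq_degree]
      exact hu
  rw [SimpleGraph.card_neighborFinset_eq_degree] at h2
  omega

def Good (D : ℕ) (u : W) : Prop :=
  (hub G D u).card = 16 ∧ G.IsClique (hub G D u : Set W) ∧ G.degree u = 115 ∧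
    ∃ C : Finset W, C.card = 100 ∧ u ∈ C ∧ G.IsClique (C : Set W) ∧ Disjoint (hub G D u) C ∧
      G.neighborFinset u = hub G D u ∪ C.erase u

omit [DecidableRel G.Adj] [Fintype W] in
theorem card_SC (S C : Finset W) (u : W) (hS : S.card = 16) (hC : C.card = 100) (hu : u ∈ C)
    (hd : Disjoint S C) : (S ∪ C.erase u).card = 115 := by
  rw [Finset.card_union_of_disjoint (hd.mono_right (Finset.erase_subset _ _)),
    Finset.card_erase_of_mem hu, hS, hC]

theorem good_of_br (D : ℕ) (u : W) (S : Finset W) (hS : S.card = 16)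
    (hc : G.IsClique (S : Set W)) (hb : Br G S u) (hsub : S ⊆ hub G D u)
    (hw : wt G D u ≤ 131) : hub G D u = S ∧ Good G D u := by
  obtain ⟨hadj, C, hC, huC, hCc, hd⟩ := hb
  have h1 : S ∪ C.erase u ⊆ G.neighborFinset u := by
    intro x hx
    rw [SimpleGraph.mem_neighborFinset]
    rcases Finset.mem_union.1 hx with h | h
    · exact hadj x h
    · rw [Finset.mem_erase] at h
      exact hCc huC h.2 h.1.symm
  have h2 := Finset.card_le_card h1
  have h3 := Finset.card_le_card hsub
  rw [card_SC S C u hS hC huC hd, SimpleGraph.card_neighborFinset_eq_degree] at h2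
  unfold wt at hw
  have h4 : hub G D u = S := (Finset.eq_of_subset_of_card_le hsub (by omega)).symm
  refine ⟨h4, ?_⟩
  unfold Good
  rw [h4]
  refine ⟨hS, hc, by omega, C, hC, huC, hCc, hd, ?_⟩
  refine (Finset.eq_of_subset_of_card_le h1 ?_).symm
  rw [card_SC S C u hS hC huC hd, SimpleGraph.card_neighborFinset_eq_degree]
  omega

theorem far (hA : ∀ u v, u ≠ v → ¬ G.Adj u v → Alt G u v) (D : ℕ) (u v : W)
    (hu : wt G D u ≤ 131) (hv : wt G D v ≤ 131) (h : v ∉ near G D u) :
    Good G D u ∧ Good G D v ∧ hub G D u = hub G D v := by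
  unfold near at h
  simp only [Finset.mem_insert, Finset.mem_union, SimpleGraph.mem_neighborFinset,
    Finset.mem_biUnion, Finset.mem_filter, not_or, not_exists, not_and] at h
  obtain ⟨h1, h2, h3⟩ := h
  have hcu : G.neighborFinset u ∩ G.neighborFinset v ⊆ hub G D u := by
    intro x hx
    simp only [Finset.mem_inter, SimpleGraph.mem_neighborFinset] at hx
    unfold hub
    simp only [Finset.mem_filter, SimpleGraph.mem_neighborFinset]
    refine ⟨hx.1, ?_⟩
    by_contra hlt
    exact h3 x ⟨hx.1, by omega⟩ hx.2.symm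
  have hcv : G.neighborFinset u ∩ G.neighborFinset v ⊆ hub G D v := by
    intro x hx
    have := hcu hx
    simp only [Finset.mem_inter, SimpleGraph.mem_neighborFinset] at hx
    unfold hub at this ⊢
    simp only [Finset.mem_filter, SimpleGraph.mem_neighborFinset] at this ⊢
    exact ⟨hx.2, this.2⟩
  rcases hA u v (fun e => h1 e.symm) h2 with ⟨-, h4⟩ | ⟨S, hS, hc, hbu, hbv⟩
  · have h5 := Finset.card_le_card hcu
    have h6 := Finset.card_le_card hcv
    unfold wt at hu hv
    omega
  · have hsub : S ⊆ G.neighborFinset u ∩ G.neighborFinset v := by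
      intro x hx
      simp only [Finset.mem_inter, SimpleGraph.mem_neighborFinset]
      exact ⟨hbu.1 x hx, hbv.1 x hx⟩
    obtain ⟨e1, g1⟩ := good_of_br G D u S hS hc hbu (hsub.trans hcu) hu
    obtain ⟨e2, g2⟩ := good_of_br G D v S hS hc hbv (hsub.trans hcv) hv
    exact ⟨g1, g2, e1.trans e2.symm⟩

omit [DecidableEq W] in
theorem sum_wt (D : ℕ) :
    ∑ u ∈ univ.filter (fun u => G.degree u ≤ D), wt G D u ≤ ∑ u, G.degree u := by
  unfold wt
  rw [Finset.sum_add_distrib,
    ← Finset.sum_filter_add_sum_filter_not univ (fun u => G.degree u ≤ D) (fun u => G.degree u)]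
  refine Nat.add_le_add_left ?_ _
  have h1 : ∀ u : W, (hub G D u).card =
      ∑ x ∈ univ.filter (fun x => ¬ G.degree x ≤ D), if G.Adj u x then 1 else 0 := by
    intro u
    rw [← Finset.card_filter]
    congr 1
    ext x
    simp only [hub, Finset.mem_filter, SimpleGraph.mem_neighborFinset, Finset.mem_univ, true_and,
      not_le]
    exact and_comm
  simp only [h1]
  rw [Finset.sum_comm]
  refine Finset.sum_le_sum (fun x _ => ?_)
  rw [← Finset.card_filter, ← SimpleGraph.card_neighborFinset_eq_degree]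
  refine Finset.card_le_card (fun y hy => ?_)
  rw [SimpleGraph.mem_neighborFinset]
  exact (Finset.mem_filter.1 hy).2.symm

def Comp (S C : Finset W) : Prop :=
  C.card = 100 ∧ Disjoint S C ∧ ∀ v ∈ C, G.neighborFinset v = S ∪ C.erase v

theorem card_ultra (hA : ∀ u v, u ≠ v → ¬ G.Adj u v → Alt G u v) (D : ℕ) (hD : 131 ≤ D) :
    (univ.filter (fun u => wt G D u < 131)).card ≤ 1 + D + D * D := by
  rcases (univ.filter (fun u => wt G D u < 131)).eq_empty_or_nonempty with h | ⟨u, hu⟩
  · rw [h]; simp
  · have hu' := (Finset.mem_filter.1 hu).2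
    have hdeg : G.degree u ≤ D := by unfold wt at hu'; omega
    refine le_trans (Finset.card_le_card (fun v hv => ?_)) (card_near G D u hdeg)
    by_contra hn
    have hv' := (Finset.mem_filter.1 hv).2
    obtain ⟨⟨h1, -, h2, -⟩, -, -⟩ := far G hA D u v hu'.le hv'.le hn
    unfold wt at hu'
    omega

theorem structure_of_sparse (hA : ∀ u v, u ≠ v → ¬ G.Adj u v → Alt G u v)
    (hn : 10 ^ 22 ≤ Fintype.card W)
    (hE : 1000 * ∑ u, G.degree u ≤ 131001 * Fintype.card W) :
    ∃ S U : Finset W, S.card = 16 ∧ G.IsClique (S : Set W) ∧ 400 < U.card ∧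
      ∀ u ∈ U, ∃ C, u ∈ C ∧ Comp G S C := by
  obtain ⟨D, hD⟩ : ∃ D : ℕ, D = 100000000 := ⟨_, rfl⟩
  obtain ⟨K, hK⟩ : ∃ K : ℕ, K = 1 + D + D * D := ⟨_, rfl⟩
  have hK' : K = 10000000100000001 := by rw [hK, hD]
  set E := ∑ u, G.degree u with hEdef
  set n := Fintype.card W with hndef
  set Lo := univ.filter (fun u => G.degree u ≤ D) with hLo
  set Hi := univ.filter (fun u => ¬ G.degree u ≤ D) with hHi
  set Li := univ.filter (fun u => wt G D u ≤ 131) with hLi
  set He := Lo.filter (fun u => ¬ wt G D u ≤ 131) with hHe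
  set Ul := univ.filter (fun u => wt G D u < 131) with hUl
  set U := Li.filter (fun u => ∀ v, G.Adj u v → G.degree v ≤ D → wt G D v ≤ 131) with hU
  set X := ∑ u ∈ Lo, (wt G D u - 131) with hX
  have h1 : Hi.card * 100000001 ≤ E := by
    calc Hi.card * 100000001 = ∑ _u ∈ Hi, 100000001 := by rw [Finset.sum_const, smul_eq_mul]
      _ ≤ ∑ u ∈ Hi, G.degree u := Finset.sum_le_sum (fun u hu => by
          have := (Finset.mem_filter.1 hu).2
          omega)
      _ ≤ E := Finset.sum_le_sum_of_subset (Finset.subset_univ _)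
  have h2 : ∑ u ∈ Lo, wt G D u ≤ E := sum_wt G D
  have h3 : Ul.card ≤ K := hK ▸ card_ultra G hA D (by omega)
  have h4 : X + Lo.card * 131 ≤ ∑ u ∈ Lo, wt G D u + Ul.card * 131 := by
    have e1 : Lo.card * 131 = ∑ _u ∈ Lo, 131 := by rw [Finset.sum_const, smul_eq_mul]
    have e2 : ∑ u ∈ Lo, (if wt G D u < 131 then 131 else 0) ≤ Ul.card * 131 := by
      rw [← Finset.sum_filter, Finset.sum_const, smul_eq_mul]
      refine Nat.mul_le_mul_right _ (Finset.card_le_card (fun u hu => ?_))
      exact Finset.mem_filter.2 ⟨Finset.mem_univ _, (Finset.mem_filter.1 hu).2⟩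
    have e3 : X + Lo.card * 131 ≤
        ∑ u ∈ Lo, wt G D u + ∑ u ∈ Lo, (if wt G D u < 131 then 131 else 0) := by
      rw [e1, hX, ← Finset.sum_add_distrib, ← Finset.sum_add_distrib]
      refine Finset.sum_le_sum (fun u _ => ?_)
      split_ifs <;> omega
    omega
  have h5 : ∑ u ∈ He, wt G D u ≤ 132 * X := by
    rw [hX, Finset.mul_sum]
    calc ∑ u ∈ He, wt G D u ≤ ∑ u ∈ He, 132 * (wt G D u - 131) :=
          Finset.sum_le_sum (fun u hu => by
            have := (Finset.mem_filter.1 hu).2
            omega)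
      _ ≤ _ := Finset.sum_le_sum_of_subset (Finset.filter_subset _ _)
  have h6 : He.card ≤ X := by
    calc He.card = ∑ _u ∈ He, 1 := by rw [Finset.sum_const, smul_eq_mul, mul_one]
      _ ≤ ∑ u ∈ He, (wt G D u - 131) := Finset.sum_le_sum (fun u hu => by
            have := (Finset.mem_filter.1 hu).2
            omega)
      _ ≤ _ := Finset.sum_le_sum_of_subset (Finset.filter_subset _ _)
  have h7 : Li.card ≤ U.card + ∑ u ∈ He, wt G D u := by
    have e1 : Li ⊆ U ∪ He.biUnion (fun v => G.neighborFinset v) := by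
      intro u hu
      rw [Finset.mem_union]
      by_cases hq : ∀ v, G.Adj u v → G.degree v ≤ D → wt G D v ≤ 131
      · exact Or.inl (Finset.mem_filter.2 ⟨hu, hq⟩)
      · right
        push Not at hq
        obtain ⟨v, hv1, hv2, hv3⟩ := hq
        rw [Finset.mem_biUnion]
        refine ⟨v, ?_, by rw [SimpleGraph.mem_neighborFinset]; exact hv1.symm⟩
        exact Finset.mem_filter.2 ⟨Finset.mem_filter.2 ⟨Finset.mem_univ _, hv2⟩, by omega⟩
    have e2 := Finset.card_le_card e1
    have e3 := Finset.card_union_le U (He.biUnion (fun v => G.neighborFinset v))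
    have e4 : (He.biUnion (fun v => G.neighborFinset v)).card ≤ ∑ u ∈ He, wt G D u := by
      refine le_trans Finset.card_biUnion_le (Finset.sum_le_sum (fun v _ => ?_))
      rw [SimpleGraph.card_neighborFinset_eq_degree]
      unfold wt
      omega
    omega
  have h8 : Lo.card ≤ Li.card + He.card := by
    have e1 : Lo ⊆ Li ∪ He := by
      intro u hu
      rw [Finset.mem_union]
      by_cases hq : wt G D u ≤ 131
      · exact Or.inl (Finset.mem_filter.2 ⟨Finset.mem_univ _, hq⟩)
      · exact Or.inr (Finset.mem_filter.2 ⟨hu, hq⟩)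
    exact le_trans (Finset.card_le_card e1) (Finset.card_union_le _ _)
  have h9 : Lo.card + Hi.card = n := by
    rw [hLo, hHi, Finset.card_filter_add_card_filter_not, Finset.card_univ]
  have hUL : U.card ≤ Li.card := Finset.card_le_card (Finset.filter_subset _ _)
  have hbig : 2 * K < U.card := by omega
  have hdegL : ∀ u ∈ Li, G.degree u ≤ D := by
    intro u hu
    have := (Finset.mem_filter.1 hu).2
    unfold wt at this
    omega
  have hpair : ∀ u ∈ Li, ∀ u' ∈ Li, Good G D u ∧ hub G D u = hub G D u' := by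
    intro u hu u' hu'
    have e1 : (near G D u ∪ near G D u').card < Li.card := by
      have a1 := card_near G D u (hdegL u hu)
      have a2 := card_near G D u' (hdegL u' hu')
      have a3 := Finset.card_union_le (near G D u) (near G D u')
      omega
    obtain ⟨v, hv, hv'⟩ := Finset.exists_mem_notMem_of_card_lt_card e1
    rw [Finset.mem_union, not_or] at hv'
    have hvw := (Finset.mem_filter.1 hv).2
    obtain ⟨g1, -, q1⟩ := far G hA D u v (Finset.mem_filter.1 hu).2 hvw hv'.1
    obtain ⟨-, -, q2⟩ := far G hA D u' v (Finset.mem_filter.1 hu').2 hvw hv'.2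
    exact ⟨g1, q1.trans q2.symm⟩
  obtain ⟨u0, hu0⟩ : Li.Nonempty := Finset.card_pos.1 (by omega)
  obtain ⟨⟨hS, hSc, -⟩, -⟩ := hpair u0 hu0 u0 hu0
  refine ⟨hub G D u0, U, hS, hSc, by omega, fun u hu => ?_⟩
  obtain ⟨huL, huq⟩ := Finset.mem_filter.1 hu
  obtain ⟨⟨-, -, -, C, hC, huC, hCc, hd, hN⟩, he⟩ := hpair u huL u0 hu0
  refine ⟨C, huC, hC, he ▸ hd, fun v hv => ?_⟩
  have hvL : v ∈ Li := by
    by_cases hvu : v = u
    · rw [hvu]; exact huL
    · have hadj : G.Adj u v := hCc huC hv (fun e => hvu e.symm)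
      refine Finset.mem_filter.2 ⟨Finset.mem_univ _, huq v hadj ?_⟩
      by_contra hlt
      have : v ∈ hub G D u := by
        unfold hub
        exact Finset.mem_filter.2 ⟨(SimpleGraph.mem_neighborFinset _ _ _).2 hadj, by omega⟩
      exact Finset.disjoint_left.1 hd this hv
  obtain ⟨⟨-, -, hdv, -⟩, hev⟩ := hpair v hvL u0 hu0
  have hsub : hub G D u0 ∪ C.erase v ⊆ G.neighborFinset v := by
    intro x hx
    rcases Finset.mem_union.1 hx with h | h
    · rw [← hev] at h
      exact (Finset.mem_filter.1 h).1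
    · rw [Finset.mem_erase] at h
      rw [SimpleGraph.mem_neighborFinset]
      exact hCc hv h.2 h.1.symm
  refine (Finset.eq_of_subset_of_card_le hsub ?_).symm
  rw [card_SC _ C v hS hC hv (he ▸ hd), SimpleGraph.card_neighborFinset_eq_degree]
  omega

end Pool.Agent.Lib.MP_ec92e0_co
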