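import Mathlib

set_option autoImplicit false

namespace Pool.Agent.Lib.MP_ec92e0_co

open Finset

/-- class sizes: X1 X0 x0 y0 Y0 Y1 A a J z Ra Rb R1 R2 -/
def sz : Fin 14 → ℕ := ![96, 3, 1, 1, 3, 96, 7, 1, 7, 1, 27, 66, 92, 67]

def M : Fin 14 → Fin 14 → Bool :=
  ![![true, true, true, false, false, false, false, false, false, false, false, false, false, false],
    ![true, true, true, false, false, false, true, true, true, true, false, false, false, false],
    ![true, true, true, true, false, false, true, true, true, true, false, false, false, false],
    ![false, false, true, true, true, true, true, true, true, true, false, false, false, false],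
    ![false, false, false, true, true, true, true, true, true, true, false, false, false, false],
    ![false, false, false, true, true, true, false, false, false, false, false, false, false, false],
    ![false, true, true, true, true, false, true, true, true, true, true, true, false, false],
    ![false, true, true, true, true, false, true, true, true, true, true, false, false, false],
    ![false, true, true, true, true, false, true, true, true, true, false, false, true, false],
    ![false, true, true, true, true, false, true, true, true, true, false, false, true, true],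
    ![false, false, false, false, false, false, true, true, false, false, true, true, false, false],
    ![false, false, false, false, false, false, true, false, false, false, true, true, false, false],
    ![false, false, false, false, false, false, false, false, true, true, false, false, true, false],
    ![false, false, false, false, false, false, false, false, false, true, false, false, false, true]]

theorem M_symm : ∀ c d : Fin 14, M c d = true → M d c = true := by decide +kernel

theorem M_refl : ∀ c : Fin 14, M c c = true := by decide +kernel

abbrev V : Type := Σ c : Fin 14, Fin (sz c)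

def H : SimpleGraph V where
  Adj a b := a ≠ b ∧ M a.1 b.1 = true
  symm := ⟨fun _ _ h => ⟨h.1.symm, M_symm _ _ h.2⟩⟩
  loopless := ⟨fun _ h => h.1 rfl⟩

theorem H_adj (a b : V) : H.Adj a b ↔ a ≠ b ∧ M a.1 b.1 = true := Iff.rfl

def Cont {W : Type} (G : SimpleGraph W) : Prop :=
  ∃ f : V → W, Function.Injective f ∧ ∀ a b : V, H.Adj a b → G.Adj (f a) (f b)

def SatAt {W : Type} (G : SimpleGraph W) (u v : W) : Prop :=
  ∃ f : V → W, Function.Injective f ∧ ∀ a b : V, H.Adj a b →
    (G.Adj (f a) (f b) ∨ (f a = u ∧ f b = v) ∨ (f a = v ∧ f b = u))

/-- vertices whose class satisfies `p` -/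
def cl (p : Fin 14 → Bool) : Finset V := univ.filter (fun v : V => p v.1 = true)

theorem mem_cl (p : Fin 14 → Bool) (v : V) : v ∈ cl p ↔ p v.1 = true := by
  simp [cl]

def tot (p : Fin 14 → Bool) : ℕ := ∑ c : Fin 14, if p c = true then sz c else 0

theorem card_cl (p : Fin 14 → Bool) : (cl p).card = tot p := by
  unfold cl tot
  rw [Finset.card_filter, Fintype.sum_sigma]
  refine Finset.sum_congr rfl (fun c _ => ?_)
  by_cases h : p c = true
  · simp [h]
  · simp [h]

theorem two_le_sz (a b : V) (hab : a ≠ b) (h : a.1 = b.1) : 2 ≤ sz a.1 := by
  obtain ⟨c, i⟩ := a
  obtain ⟨d, j⟩ := b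
  simp only at h
  subst h
  have hij : i ≠ j := fun e => hab (by rw [e])
  have h1 := i.2
  have h2 := j.2
  have h3 : i.1 ≠ j.1 := fun e => hij (Fin.ext e)
  simp only
  omega

/-- class level codegree check -/
theorem codeg_check : ∀ c d : Fin 14, M c d = true → (c = d → 2 ≤ sz c) →
    ¬ (c = 2 ∧ d = 3) → ¬ (c = 3 ∧ d = 2) →
    19 ≤ tot (fun e => M c e && M d e) ∧
      (136 ≤ tot (fun e => M c e && M d e) + tot (fun e => M c e) ∨
       136 ≤ tot (fun e => M c e && M d e) + tot (fun e => M d e)) := by
  decide +kernel

/-- grouping lemma -/
theorem exists_inj {W : Type} {k : ℕ} (gc : Fin 14 → Fin k) (P : Fin k → Finset W)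
    (hd : ∀ i j, i ≠ j → Disjoint (P i) (P j))
    (hc : ∀ j, tot (fun c => decide (gc c = j)) ≤ (P j).card) :
    ∃ f : V → W, Function.Injective f ∧ ∀ v, f v ∈ P (gc v.1) := by
  classical
  have key : ∀ s : Finset V, s.card ≤ (s.biUnion (fun v => P (gc v.1))).card := by
    intro s
    have h1 : s.biUnion (fun v => P (gc v.1)) = (s.image (fun v => gc v.1)).biUnion P := by
      rw [Finset.image_biUnion]
    rw [h1, Finset.card_biUnion (fun i _ j _ hij => hd i j hij),
      Finset.card_eq_sum_card_image (fun v : V => gc v.1) s]
    refine Finset.sum_le_sum (fun j _ => le_trans ?_ (hc j))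
    rw [← card_cl]
    refine Finset.card_le_card (fun v hv => ?_)
    rw [mem_cl]
    simpa using (Finset.mem_filter.1 hv).2
  exact (Finset.all_card_le_biUnion_card_iff_exists_injective _).1 key

end Pool.Agent.Lib.MP_ec92e0_co
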