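import Pool.Agent.Lib.MP_ec92e0_co.Defs

set_option autoImplicit false

namespace Pool.Agent.Lib.MP_ec92e0_co

open Finset

variable {W : Type} [Fintype W] [DecidableEq W]

/-- bridge structure at a vertex -/
def Br (G : SimpleGraph W) (S : Finset W) (u : W) : Prop :=
  (∀ x ∈ S, G.Adj u x) ∧
    ∃ C : Finset W, C.card = 100 ∧ u ∈ C ∧ G.IsClique (C : Set W) ∧ Disjoint S C

def Alt (G : SimpleGraph W) [DecidableRel G.Adj] (u v : W) : Prop :=
  (17 ≤ (G.neighborFinset u ∩ G.neighborFinset v).card ∧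
    (132 ≤ (G.neighborFinset u ∩ G.neighborFinset v).card + G.degree u ∨
     132 ≤ (G.neighborFinset u ∩ G.neighborFinset v).card + G.degree v)) ∨
  ∃ S : Finset W, S.card = 16 ∧ G.IsClique (S : Set W) ∧ Br G S u ∧ Br G S v

def pS : Fin 14 → Bool := fun c => decide (6 ≤ c ∧ c ≤ 9)
def pX : Fin 14 → Bool := fun c => decide (c ≤ 2)
def pY : Fin 14 → Bool := fun c => decide (3 ≤ c ∧ c ≤ 5)

theorem tot_pS : tot pS = 16 := by decide +kernel
theorem tot_pX : tot pX = 100 := by decide +kernel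
theorem tot_pY : tot pY = 100 := by decide +kernel
theorem pS_cl : ∀ c d, pS c = true → pS d = true → M c d = true := by decide +kernel
theorem pX_cl : ∀ c d, pX c = true → pX d = true → M c d = true := by decide +kernel
theorem pY_cl : ∀ c d, pY c = true → pY d = true → M c d = true := by decide +kernel
theorem pS_x : ∀ c, pS c = true → M 2 c = true ∧ M 3 c = true ∧ c ≠ 2 ∧ c ≠ 3 ∧ pX c = false ∧ pY c = false := by
  decide +kernel

omit [Fintype W] in
theorem clique_img (G : SimpleGraph W) (f : V → W) (x y : V)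
    (hf : ∀ a b : V, H.Adj a b → ¬ (a = x ∧ b = y) → ¬ (a = y ∧ b = x) → G.Adj (f a) (f b))
    (p : Fin 14 → Bool) (hp : ∀ c d, p c = true → p d = true → M c d = true)
    (hxy : p x.1 = false ∨ p y.1 = false) :
    G.IsClique (((cl p).image f : Finset W) : Set W) := by
  intro a ha b hb hab
  simp only [Finset.coe_image, Set.mem_image, Finset.mem_coe, mem_cl] at ha hb
  obtain ⟨a', ha', rfl⟩ := ha
  obtain ⟨b', hb', rfl⟩ := hb
  have hne : a' ≠ b' := fun e => hab (by rw [e])
  refine hf a' b' ⟨hne, hp _ _ ha' hb'⟩ ?_ ?_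
  · rintro ⟨rfl, rfl⟩
    rcases hxy with h | h
    · rw [h] at ha'; exact Bool.false_ne_true ha'
    · rw [h] at hb'; exact Bool.false_ne_true hb'
  · rintro ⟨rfl, rfl⟩
    rcases hxy with h | h
    · rw [h] at hb'; exact Bool.false_ne_true hb'
    · rw [h] at ha'; exact Bool.false_ne_true ha'

omit [Fintype W] in
theorem bridge_case (G : SimpleGraph W) (f : V → W) (hinj : Function.Injective f) (x y : V)
    (hf : ∀ a b : V, H.Adj a b → ¬ (a = x ∧ b = y) → ¬ (a = y ∧ b = x) → G.Adj (f a) (f b))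
    (hx : x.1 = 2) (hy : y.1 = 3) :
    ∃ S : Finset W, S.card = 16 ∧ G.IsClique (S : Set W) ∧ Br G S (f x) ∧ Br G S (f y) := by
  have hdisj : ∀ p : Fin 14 → Bool, (∀ c, pS c = true → p c = false) →
      Disjoint ((cl pS).image f) ((cl p).image f) := by
    intro p hp
    rw [Finset.disjoint_image hinj, Finset.disjoint_left]
    intro a ha hb
    rw [mem_cl] at ha hb
    rw [hp _ ha] at hb
    exact Bool.false_ne_true hb
  refine ⟨(cl pS).image f, ?_, ?_, ⟨?_, (cl pX).image f, ?_, ?_, ?_, ?_⟩,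
    ⟨?_, (cl pY).image f, ?_, ?_, ?_, ?_⟩⟩
  · rw [Finset.card_image_of_injective _ hinj, card_cl, tot_pS]
  · exact clique_img G f x y hf pS pS_cl (Or.inl (by rw [hx]; decide))
  · intro a ha
    obtain ⟨a', ha', rfl⟩ := Finset.mem_image.1 ha
    rw [mem_cl] at ha'
    obtain ⟨h1, h2, h3, h4, -⟩ := pS_x _ ha'
    have hax : x ≠ a' := fun e => h3 (by rw [← e, hx])
    have hay : y ≠ a' := fun e => h4 (by rw [← e, hy])
    refine hf x a' ⟨hax, by rw [hx]; exact h1⟩ (fun h => hay h.2.symm) (fun h => hax h.2.symm)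
  · rw [Finset.card_image_of_injective _ hinj, card_cl, tot_pX]
  · exact Finset.mem_image_of_mem _ ((mem_cl _ _).2 (by rw [hx]; decide))
  · exact clique_img G f x y hf pX pX_cl (Or.inr (by rw [hy]; decide))
  · exact hdisj pX (fun c hc => (pS_x c hc).2.2.2.2.1)
  · intro a ha
    obtain ⟨a', ha', rfl⟩ := Finset.mem_image.1 ha
    rw [mem_cl] at ha'
    obtain ⟨h1, h2, h3, h4, -⟩ := pS_x _ ha'
    have hax : x ≠ a' := fun e => h3 (by rw [← e, hx])
    have hay : y ≠ a' := fun e => h4 (by rw [← e, hy])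
    refine hf y a' ⟨hay, by rw [hy]; exact h2⟩ (fun h => hay h.2.symm) (fun h => hax h.2.symm)
  · rw [Finset.card_image_of_injective _ hinj, card_cl, tot_pY]
  · exact Finset.mem_image_of_mem _ ((mem_cl _ _).2 (by rw [hy]; decide))
  · exact clique_img G f x y hf pY pY_cl (Or.inl (by rw [hx]; decide))
  · exact hdisj pY (fun c hc => (pS_x c hc).2.2.2.2.2)

theorem deg_bound (G : SimpleGraph W) [DecidableRel G.Adj] (f : V → W)
    (hinj : Function.Injective f) (x y : V)
    (hf : ∀ a b : V, H.Adj a b → ¬ (a = x ∧ b = y) → ¬ (a = y ∧ b = x) → G.Adj (f a) (f b)) :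
    tot (fun e => M x.1 e) ≤ G.degree (f x) + 2 := by
  have h1 : (((cl (fun e => M x.1 e)).erase x).erase y).image f ⊆ G.neighborFinset (f x) := by
    intro a ha
    obtain ⟨a', ha', rfl⟩ := Finset.mem_image.1 ha
    simp only [Finset.mem_erase, mem_cl] at ha'
    rw [SimpleGraph.mem_neighborFinset]
    exact hf x a' ⟨ha'.2.1.symm, ha'.2.2⟩ (fun h => ha'.1 h.2) (fun h => ha'.2.1 h.2)
  have h2 := Finset.card_le_card h1
  rw [Finset.card_image_of_injective _ hinj, SimpleGraph.card_neighborFinset_eq_degree] at h2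
  have h3 := Finset.pred_card_le_card_erase (s := (cl (fun e => M x.1 e)).erase x) (a := y)
  have h4 := Finset.pred_card_le_card_erase (s := cl (fun e => M x.1 e)) (a := x)
  rw [card_cl] at h4
  omega

theorem codeg_bound (G : SimpleGraph W) [DecidableRel G.Adj] (f : V → W)
    (hinj : Function.Injective f) (x y : V)
    (hf : ∀ a b : V, H.Adj a b → ¬ (a = x ∧ b = y) → ¬ (a = y ∧ b = x) → G.Adj (f a) (f b)) :
    tot (fun e => M x.1 e && M y.1 e) ≤
      (G.neighborFinset (f x) ∩ G.neighborFinset (f y)).card + 2 := by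
  have h1 : (((cl (fun e => M x.1 e && M y.1 e)).erase x).erase y).image f ⊆
      G.neighborFinset (f x) ∩ G.neighborFinset (f y) := by
    intro a ha
    obtain ⟨a', ha', rfl⟩ := Finset.mem_image.1 ha
    simp only [Finset.mem_erase, mem_cl, Bool.and_eq_true] at ha'
    rw [Finset.mem_inter, SimpleGraph.mem_neighborFinset, SimpleGraph.mem_neighborFinset]
    exact ⟨hf x a' ⟨ha'.2.1.symm, ha'.2.2.1⟩ (fun h => ha'.1 h.2) (fun h => ha'.2.1 h.2),
      hf y a' ⟨ha'.1.symm, ha'.2.2.2⟩ (fun h => ha'.1 h.2) (fun h => ha'.2.1 h.2)⟩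
  have h2 := Finset.card_le_card h1
  rw [Finset.card_image_of_injective _ hinj] at h2
  have h3 := Finset.pred_card_le_card_erase
    (s := (cl (fun e => M x.1 e && M y.1 e)).erase x) (a := y)
  have h4 := Finset.pred_card_le_card_erase (s := cl (fun e => M x.1 e && M y.1 e)) (a := x)
  rw [card_cl] at h4
  omega

theorem alt_of_sat (G : SimpleGraph W) [DecidableRel G.Adj] (hfree : ¬ Cont G) (u v : W)
    (h : SatAt G u v) : Alt G u v := by
  obtain ⟨f, hinj, hf⟩ := h
  have hex : ∃ x y : V, H.Adj x y ∧ f x = u ∧ f y = v := by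
    by_contra hne
    refine hfree ⟨f, hinj, fun a b hab => ?_⟩
    rcases hf a b hab with h | h | h
    · exact h
    · exact absurd ⟨a, b, hab, h.1, h.2⟩ hne
    · exact absurd ⟨b, a, hab.symm, h.2, h.1⟩ hne
  obtain ⟨x, y, hxy, rfl, rfl⟩ := hex
  have hf' : ∀ a b : V, H.Adj a b → ¬ (a = x ∧ b = y) → ¬ (a = y ∧ b = x) →
      G.Adj (f a) (f b) := by
    intro a b hab h1 h2
    rcases hf a b hab with h | h | h
    · exact h
    · exact absurd ⟨hinj h.1, hinj h.2⟩ h1
    · exact absurd ⟨hinj h.1, hinj h.2⟩ h2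
  have hf'' : ∀ a b : V, H.Adj a b → ¬ (a = y ∧ b = x) → ¬ (a = x ∧ b = y) →
      G.Adj (f a) (f b) := fun a b hab h1 h2 => hf' a b hab h2 h1
  by_cases h1 : x.1 = 2 ∧ y.1 = 3
  · exact Or.inr (bridge_case G f hinj x y hf' h1.1 h1.2)
  by_cases h2 : x.1 = 3 ∧ y.1 = 2
  · obtain ⟨S, hS, hc, hy, hx⟩ := bridge_case G f hinj y x hf'' h2.2 h2.1
    exact Or.inr ⟨S, hS, hc, hx, hy⟩
  left
  have h3 := codeg_check x.1 y.1 hxy.2 (two_le_sz x y hxy.1) h1 h2
  have h4 := deg_bound G f hinj x y hf'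
  have h5 := deg_bound G f hinj y x hf''
  have h6 := codeg_bound G f hinj x y hf'
  omega

end Pool.Agent.Lib.MP_ec92e0_co
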