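import Pool.Agent.Lib.MP_ec92e0_co.Step

set_option autoImplicit false

namespace Pool.Agent.Lib.MP_ec92e0_co

open SimpleGraph Filter

variable {W V : Type*}

/-- The saturation number. -/
noncomputable def sat (H : SimpleGraph W) (n : ℕ) : ℕ :=
  sInf {k : ℕ | ∃ G : SimpleGraph (Fin n), Sat H G ∧ G.edgeSet.ncard = k}

theorem sat_le [Fintype V] {H : SimpleGraph W} {G : SimpleGraph V} (hG : Sat H G) {n : ℕ}
    (hn : Fintype.card V = n) : sat H n ≤ G.edgeSet.ncard := by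
  obtain e : Fin n ≃ V := (Fintype.equivFinOfCardEq hn).symm
  refine Nat.sInf_le ⟨G.comap e, ⟨?_, fun u v huv hadj => ?_⟩, ?_⟩
  · rintro ⟨f, hf, h⟩
    exact hG.1 ⟨e ∘ f, e.injective.comp hf, h⟩
  · obtain ⟨f, hf, h⟩ := hG.2 (e u) (e v) (e.injective.ne huv) hadj
    refine ⟨e.symm ∘ f, e.symm.injective.comp hf, fun a b hab => ?_⟩
    rcases h a b hab with h | h | h
    · left; simpa using h
    · simp [h.1, h.2]
    · simp [h.1, h.2]
  · rw [← Nat.card_coe_set_eq, ← Nat.card_coe_set_eq]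
    exact Nat.card_congr (Iso.comap e G).mapEdgeSet

theorem exists_sat {H : SimpleGraph W} (hH : H.edgeSet.Nonempty) (n : ℕ) :
    ∃ G : SimpleGraph (Fin n), Sat H G ∧ G.edgeSet.ncard = sat H n := by
  have : {k : ℕ | ∃ G : SimpleGraph (Fin n), Sat H G ∧ G.edgeSet.ncard = k}.Nonempty := by
    obtain ⟨G, hG, -⟩ := exists_completion H (⊥ : SimpleGraph (Fin n)) (by
      rintro ⟨f, -, h⟩
      obtain ⟨e, he⟩ := hH
      induction e using Sym2.ind with
      | _ a b => exact h a b he)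
    exact ⟨_, G, hG, rfl⟩
  exact Nat.sInf_mem this

theorem fib_inl {a b s t : ℕ} (x : Fin a × Fin s) :
    {y' : (Fin a × Fin s) ⊕ (Fin b × Fin t) |
      Sum.map Prod.fst Prod.fst y' = Sum.map Prod.fst Prod.fst (.inl x : (Fin a × Fin s) ⊕ (Fin b × Fin t))}.ncard = s := by
  have : {y' : (Fin a × Fin s) ⊕ (Fin b × Fin t) |
      Sum.map Prod.fst Prod.fst y' = Sum.map Prod.fst Prod.fst (.inl x : (Fin a × Fin s) ⊕ (Fin b × Fin t))} =
      Set.range (fun j : Fin s => Sum.inl (x.1, j)) := by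
    ext (⟨i, j⟩ | ⟨i, j⟩) <;> simp [eq_comm]
  rw [this, Set.ncard_range_of_injective (fun i j h => by simpa using h)]
  simp

theorem fib_inr {a b s t : ℕ} (x : Fin b × Fin t) :
    {y' : (Fin a × Fin s) ⊕ (Fin b × Fin t) |
      Sum.map Prod.fst Prod.fst y' = Sum.map Prod.fst Prod.fst (.inr x : (Fin a × Fin s) ⊕ (Fin b × Fin t))}.ncard = t := by
  have : {y' : (Fin a × Fin s) ⊕ (Fin b × Fin t) |
      Sum.map Prod.fst Prod.fst y' = Sum.map Prod.fst Prod.fst (.inr x : (Fin a × Fin s) ⊕ (Fin b × Fin t))} =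
      Set.range (fun j : Fin t => Sum.inr (x.1, j)) := by
    ext (⟨i, j⟩ | ⟨i, j⟩) <;> simp [eq_comm]
  rw [this, Set.ncard_range_of_injective (fun i j h => by simpa using h)]
  simp

theorem exists_repr (s j : ℕ) (hj : (s + 1) * (s + 1) ≤ j) :
    ∃ a b, a * (s + 1) + b * s = j := by
  obtain ⟨r, hr, q, rfl⟩ : ∃ r, r ≤ s ∧ ∃ q, j = q * (s + 1) + r :=
    ⟨j % (s + 1), Nat.lt_succ_iff.mp (Nat.mod_lt _ (by omega)), j / (s + 1),
      by rw [mul_comm]; exact (Nat.div_add_mod _ _).symm⟩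
  have hq : s ≤ q := by
    by_contra h
    have : q * (s + 1) ≤ s * (s + 1) := Nat.mul_le_mul_right _ (by omega)
    nlinarith
  obtain ⟨d, rfl⟩ := Nat.exists_eq_add_of_le hq
  obtain ⟨e, rfl⟩ := Nat.exists_eq_add_of_le hr
  exact ⟨d + r, e + 1, by ring⟩

theorem sat_step [Fintype W] {H : SimpleGraph W} (hT : H.IsTree) (hd : H.ediam ≤ 4)
    (hH : H.edgeSet.Nonempty) (n k j : ℕ) (hj : Fintype.card W * Fintype.card W ≤ j) :
    sat H (k * n + j) ≤ k * sat H n + Fintype.card W *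
      (k * (Fintype.card W * 2 ^ (Fintype.card W * Fintype.card W)) + j) := by
  have h2 : 2 ≤ Fintype.card W := by
    obtain ⟨e, he⟩ := hH
    induction e using Sym2.ind with
    | _ a b => exact Fintype.one_lt_card_iff.mpr ⟨a, b, (H.mem_edgeSet.mp he).ne⟩
  obtain ⟨s, hs⟩ := Nat.exists_eq_add_of_le' h2
  obtain ⟨a, b, hab⟩ := exists_repr s j (le_trans (by rw [hs]; nlinarith) hj)
  obtain ⟨G, hG, hGe⟩ := exists_sat hH n
  have hY : Fintype.card ((Fin a × Fin (s + 1)) ⊕ (Fin b × Fin s)) = j := by simp [hab]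
  obtain ⟨G', hG', hle⟩ := step hT hd hG k
    (Sum.map Prod.fst Prod.fst : (Fin a × Fin (s + 1)) ⊕ (Fin b × Fin s) → Fin a ⊕ Fin b)
    (by
      rintro (x | x)
      · rw [fib_inl]; omega
      · rw [fib_inr]
        have := x.2.pos
        omega)
    (by
      rintro (x | x)
      · rw [fib_inl]; omega
      · rw [fib_inr]; omega)
  rw [hY, hGe] at hle
  exact (sat_le hG' (by rw [Fintype.card_sum, hY]; simp)).trans hle

/-- A Fekete type lemma. -/
theorem tendsto_of_step (f : ℕ → ℕ) (A B C : ℕ)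
    (h : ∀ n k j, C ≤ j → f (k * n + j) ≤ k * f n + k * A + B * j) :
    ∃ L : ℝ, Tendsto (fun n : ℕ => (f n : ℝ) / n) atTop (nhds L) := by
  set g : ℕ → ℝ := fun n => ((f (n + 1) : ℝ) + A) / (n + 1 : ℕ) with hg
  have hbdd : BddBelow (Set.range g) := ⟨0, by rintro _ ⟨n, rfl⟩; positivity⟩
  refine ⟨⨅ n, g n, tendsto_order.mpr ⟨fun a ha => ?_, fun a ha => ?_⟩⟩
  · have h1 : Tendsto (fun n : ℕ => (⨅ n, g n) - (A : ℝ) / n) atTop (nhds ((⨅ n, g n) - 0)) :=
      tendsto_const_nhds.sub (tendsto_const_div_atTop_nhds_zero_nat _)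
    rw [sub_zero] at h1
    filter_upwards [h1.eventually (lt_mem_nhds ha), eventually_ge_atTop 1] with n hn hn1
    obtain ⟨n, rfl⟩ := Nat.exists_eq_add_of_le' hn1
    have h2 := ciInf_le hbdd n
    have h3 : g n = (f (n + 1) : ℝ) / (n + 1 : ℕ) + (A : ℝ) / (n + 1 : ℕ) := add_div _ _ _
    linarith
  · obtain ⟨n, hn⟩ := exists_lt_of_ciInf_lt ha
    have h1 : Tendsto (fun N : ℕ => g n + ((B * (C + n + 1) : ℕ) : ℝ) / N) atTop (nhds (g n + 0)) :=
      tendsto_const_nhds.add (tendsto_const_div_atTop_nhds_zero_nat _)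
    rw [add_zero] at h1
    filter_upwards [h1.eventually (gt_mem_nhds hn), eventually_ge_atTop (C + 1)] with N hN hN1
    refine lt_of_le_of_lt ?_ hN
    have hNpos : (0 : ℝ) < N := by exact_mod_cast (by omega : 0 < N)
    set k := (N - C) / (n + 1) with hk
    set r := (N - C) % (n + 1) with hr
    have h2 : (n + 1) * k + r = N - C := Nat.div_add_mod _ _
    have h3 : r < n + 1 := Nat.mod_lt _ (by omega)
    have h4 : N = k * (n + 1) + (C + r) := by rw [mul_comm]; omega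
    have h5 := h (n + 1) k (C + r) (by omega)
    rw [← h4] at h5
    have h6 : B * (C + r) ≤ B * (C + n + 1) := Nat.mul_le_mul_left _ (by omega)
    have h7 : (f N : ℝ) ≤ k * (f (n + 1) + A) + ((B * (C + n + 1) : ℕ) : ℝ) := by
      have : f N ≤ k * (f (n + 1) + A) + B * (C + n + 1) := by rw [mul_add]; omega
      exact_mod_cast this
    have h8 : (k : ℝ) * (n + 1 : ℕ) ≤ N := by exact_mod_cast (by omega : k * (n + 1) ≤ N)
    have h9 : (k : ℝ) * (f (n + 1) + A) ≤ g n * N := by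
      have hpos : (0 : ℝ) < (n + 1 : ℕ) := by positivity
      have hg0 : 0 ≤ g n := by simp only [hg]; positivity
      have : (f (n + 1) : ℝ) + A = g n * (n + 1 : ℕ) := by
        simp only [hg]; field_simp
      rw [this]
      nlinarith
    rw [div_le_iff₀ hNpos, add_mul, div_mul_cancel₀ _ hNpos.ne']
    linarith

theorem main [Fintype W] {H : SimpleGraph W} (hT : H.IsTree) (hd : H.ediam ≤ 4)
    (hH : H.edgeSet.Nonempty) :
    ∃ L : ℝ, Tendsto (fun n : ℕ => (sat H n : ℝ) / n) atTop (nhds L) := by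
  refine tendsto_of_step (sat H)
    (Fintype.card W * (Fintype.card W * 2 ^ (Fintype.card W * Fintype.card W)))
    (Fintype.card W) (Fintype.card W * Fintype.card W) fun n k j hj => ?_
  refine (sat_step hT hd hH n k j hj).trans (le_of_eq ?_)
  ring

end Pool.Agent.Lib.MP_ec92e0_co
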