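import Pool.Agent.Lib.MP_ec92e0_co.Key

set_option autoImplicit false

namespace Pool.Agent.Lib.MP_ec92e0_co

open Finset

def isC (l : List (Fin 14)) : Fin 14 → Bool := fun c => decide (c ∈ l)

theorem no_blocks (b : V → ℕ) (h0 : (univ.filter (fun v => b v = 0)).card ≤ 16)
    (h1 : ∀ j, j ≠ 0 → (univ.filter (fun v => b v = j)).card ≤ 100)
    (hadj : ∀ a c : V, H.Adj a c → b a = 0 ∨ b c = 0 ∨ b a = b c) : False := by
  have link : ∀ a c : V, M a.1 c.1 = true → b a ≠ 0 → b c ≠ 0 → b a = b c := by
    intro a c hM ha hc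
    by_cases hac : a = c
    · rw [hac]
    · rcases hadj a c ⟨hac, hM⟩ with h | h | h
      · exact absurd h ha
      · exact absurd h hc
      · exact h
  have zero : ∀ p : Fin 14 → Bool, (∀ v : V, p v.1 = true → b v = 0) → tot p ≤ 16 := by
    intro p hp
    rw [← card_cl]
    refine le_trans (Finset.card_le_card (fun v hv => ?_)) h0
    exact Finset.mem_filter.2 ⟨Finset.mem_univ _, hp v ((mem_cl _ _).1 hv)⟩
  have nz : ∀ p : Fin 14 → Bool, 16 < tot p → ∃ v : V, p v.1 = true ∧ b v ≠ 0 := by
    intro p hp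
    by_contra hne
    push Not at hne
    have := zero p hne
    omega
  have big : ∀ p q : Fin 14 → Bool, (∀ c d, p c = true → p d = true → M c d = true) →
      (∀ c d, q c = true → q d = true → M c d = true) → 116 < tot (fun c => p c || q c) →
      ∀ v w : V, p v.1 = true → q w.1 = true → b v ≠ 0 → b v = b w → False := by
    intro p q hp hq hpq v w hv hw hv0 hvw
    have e1 : cl (fun c => p c || q c) ⊆
        univ.filter (fun x => b x = 0) ∪ univ.filter (fun x => b x = b v) := by
      intro x hx
      rw [mem_cl, Bool.or_eq_true] at hx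
      simp only [Finset.mem_union, Finset.mem_filter, Finset.mem_univ, true_and]
      by_cases hx0 : b x = 0
      · exact Or.inl hx0
      · right
        rcases hx with h | h
        · exact link x v (hp _ _ h hv) hx0 hv0
        · rw [hvw]
          exact link x w (hq _ _ h hw) hx0 (hvw ▸ hv0)
    have e2 := Finset.card_le_card e1
    have e3 := Finset.card_union_le (univ.filter (fun x => b x = 0))
      (univ.filter (fun x => b x = b v))
    have e4 := h1 (b v) hv0
    rw [card_cl] at e2
    omega
  obtain ⟨vA, hvA, nA⟩ := nz (isC [10]) (by decide +kernel)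
  obtain ⟨v1, hv1, n1⟩ := nz (isC [12]) (by decide +kernel)
  obtain ⟨v2, hv2, n2⟩ := nz (isC [13]) (by decide +kernel)
  have cA : vA.1 = 10 := by simpa [isC] using hvA
  have c1 : v1.1 = 12 := by simpa [isC] using hv1
  have c2 : v2.1 = 13 := by simpa [isC] using hv2
  have hRA : ∀ c d, isC [10, 11] c = true → isC [10, 11] d = true → M c d = true := by
    decide +kernel
  have hR1 : ∀ c d, isC [12] c = true → isC [12] d = true → M c d = true := by decide +kernel
  have hR2 : ∀ c d, isC [13] c = true → isC [13] d = true → M c d = true := by decide +kernel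
  have hvA' : isC [10, 11] vA.1 = true := by rw [cA]; decide
  have lA : ∀ p : V, isC [6, 7, 10, 11] p.1 = true → b p ≠ 0 → b p = b vA := by
    intro p hp hp0
    refine link p vA ?_ hp0 nA
    rw [cA]
    exact (by decide +kernel : ∀ c, isC [6, 7, 10, 11] c = true → M c 10 = true) _ hp
  have l1 : ∀ p : V, isC [8, 9] p.1 = true → b p ≠ 0 → b p = b v1 := by
    intro p hp hp0
    refine link p v1 ?_ hp0 n1
    rw [c1]
    exact (by decide +kernel : ∀ c, isC [8, 9] c = true → M c 12 = true) _ hp
  have step1 : ∃ p : V, pS p.1 = true ∧ b p ≠ 0 := by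
    by_contra hne
    push Not at hne
    obtain ⟨x, hx, nx⟩ := nz (fun c => pS c || isC [2] c) (by decide +kernel)
    obtain ⟨y, hy, ny⟩ := nz (fun c => pS c || isC [3] c) (by decide +kernel)
    rw [Bool.or_eq_true] at hx hy
    have cx : x.1 = 2 := by
      rcases hx with h | h
      · exact absurd (hne x h) nx
      · simpa [isC] using h
    have cy : y.1 = 3 := by
      rcases hy with h | h
      · exact absurd (hne y h) ny
      · simpa [isC] using h
    exact big pX pY pX_cl pY_cl (by decide +kernel) x y (by rw [cx]; decide) (by rw [cy]; decide) nx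
      (link x y (by rw [cx, cy]; decide) nx ny)
  obtain ⟨p, hp, np⟩ := step1
  have hsplit : ∀ c, pS c = true → isC [6, 7, 10, 11] c = true ∨ isC [8, 9] c = true := by
    decide +kernel
  have step2 : ∀ q : V, isC [1, 2, 3, 4] q.1 = true → b q = 0 := by
    intro q hq
    by_contra nq
    have e1 : b q = b p := link q p
      ((by decide +kernel : ∀ c d, isC [1, 2, 3, 4] c = true → pS d = true → M c d = true)
        _ _ hq hp) nq np
    have e2 : pX q.1 = true ∨ pY q.1 = true :=
      (by decide +kernel : ∀ c, isC [1, 2, 3, 4] c = true → pX c = true ∨ pY c = true) _ hq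
    rcases hsplit _ hp with h | h <;> rcases e2 with h' | h'
    · exact big pX _ pX_cl hRA (by decide +kernel) q vA h' hvA' nq (e1.trans (lA p h np))
    · exact big pY _ pY_cl hRA (by decide +kernel) q vA h' hvA' nq (e1.trans (lA p h np))
    · exact big pX _ pX_cl hR1 (by decide +kernel) q v1 h' hv1 nq (e1.trans (l1 p h np))
    · exact big pY _ pY_cl hR1 (by decide +kernel) q v1 h' hv1 nq (e1.trans (l1 p h np))
  have step3 : ∀ z : V, z.1 = 9 → b z = 0 := by
    intro z hz
    by_contra nz'
    have e1 := l1 z (by rw [hz]; decide) nz'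
    have e2 := link z v2 (by rw [hz, c2]; decide) nz' n2
    exact big _ _ hR1 hR2 (by decide +kernel) v1 v2 hv1 hv2 n1 (e1.symm.trans e2)
  have step4 : ∀ a j : V, isC [6, 7] a.1 = true → isC [8, 9] j.1 = true → b a ≠ 0 → b j ≠ 0 →
      False := by
    intro a j ha hj na nj
    have e1 := lA a
      ((by decide +kernel : ∀ c, isC [6, 7] c = true → isC [6, 7, 10, 11] c = true) _ ha) na
    have e2 := l1 j hj nj
    have e3 := link a j
      ((by decide +kernel : ∀ c d, isC [6, 7] c = true → isC [8, 9] d = true → M c d = true)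
        _ _ ha hj) na nj
    exact big _ _ hRA hR1 (by decide +kernel) vA v1 hvA' hv1 nA (e1.symm.trans (e3.trans e2))
  rcases (by decide +kernel : ∀ c, pS c = true → isC [6, 7] c = true ∨ isC [8, 9] c = true) _ hp
    with h | h
  · have e1 : ∀ v : V, isC [1, 2, 3, 4, 8, 9] v.1 = true → b v = 0 := by
      intro v hv
      rcases (by decide +kernel : ∀ c, isC [1, 2, 3, 4, 8, 9] c = true →
        isC [1, 2, 3, 4] c = true ∨ isC [8, 9] c = true) _ hv with h' | h'
      · exact step2 v h'
      · by_contra nv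
        exact step4 p v h h' np nv
    have e2 : cl (isC [1, 2, 3, 4, 8, 9]) = univ.filter (fun v => b v = 0) := by
      refine Finset.eq_of_subset_of_card_le (fun v hv => ?_) ?_
      · exact Finset.mem_filter.2 ⟨Finset.mem_univ _, e1 v ((mem_cl _ _).1 hv)⟩
      · rw [card_cl]
        exact le_trans h0 (by decide +kernel)
    have e3 : cl (isC [6, 7, 10, 11]) ⊆ univ.filter (fun v => b v = b vA) := by
      intro v hv
      rw [mem_cl] at hv
      refine Finset.mem_filter.2 ⟨Finset.mem_univ _, lA v hv (fun hv0 => ?_)⟩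
      have : v ∈ cl (isC [1, 2, 3, 4, 8, 9]) := by
        rw [e2]
        exact Finset.mem_filter.2 ⟨Finset.mem_univ _, hv0⟩
      rw [mem_cl] at this
      exact (by decide +kernel : ∀ c, isC [6, 7, 10, 11] c = true →
        isC [1, 2, 3, 4, 8, 9] c = true → False) _ hv this
    have e4 := Finset.card_le_card e3
    have e5 := h1 _ nA
    have e6 : tot (isC [6, 7, 10, 11]) = 101 := by decide +kernel
    rw [card_cl] at e4
    omega
  · have e1 : ∀ v : V, isC [1, 2, 3, 4, 6, 7, 9] v.1 = true → b v = 0 := by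
      intro v hv
      rcases (by decide +kernel : ∀ c, isC [1, 2, 3, 4, 6, 7, 9] c = true →
        isC [1, 2, 3, 4] c = true ∨ isC [6, 7] c = true ∨ c = 9) _ hv with h' | h' | h'
      · exact step2 v h'
      · by_contra nv
        exact step4 v p h' h nv np
      · exact step3 v h'
    have e2 := zero _ e1
    have e3 : tot (isC [1, 2, 3, 4, 6, 7, 9]) = 17 := by decide +kernel
    omega

variable {W : Type}

def blockG (β : W → ℕ) : SimpleGraph W where
  Adj x y := x ≠ y ∧ (β x = 0 ∨ β y = 0 ∨ β x = β y)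
  symm := ⟨fun _ _ h => ⟨h.1.symm, by rcases h.2 with h | h | h <;> simp [h]⟩⟩
  loopless := ⟨fun _ h => h.1 rfl⟩

variable [Fintype W] [DecidableEq W]

omit [DecidableEq W] in
theorem block_free (β : W → ℕ) (h0 : (univ.filter (fun v => β v = 0)).card ≤ 16)
    (h1 : ∀ j, j ≠ 0 → (univ.filter (fun v => β v = j)).card ≤ 100) : ¬ Cont (blockG β) := by
  rintro ⟨f, hinj, hf⟩
  have key : ∀ j, (univ.filter (fun v => β (f v) = j)).card ≤
      (univ.filter (fun v => β v = j)).card := by
    intro j
    refine Finset.card_le_card_of_injOn f (fun v hv => ?_) hinj.injOn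
    simpa using hv
  exact no_blocks (fun v => β (f v)) (le_trans (key 0) h0) (fun j hj => le_trans (key j) (h1 j hj))
    (fun a c hac => (hf a c hac).2)

/-- classes: X1 X0 x0 y0 Y0 Y1 A a J z Ra Rb R1 R2 -/
def gD : Fin 14 → Fin 8 := ![2, 2, 1, 3, 4, 4, 0, 0, 0, 0, 5, 5, 6, 7]
def blk : Fin 8 → Fin 6 := ![0, 1, 1, 2, 2, 3, 4, 5]

theorem gD_R : ∀ c d, M c d = true → blk (gD c) = 0 ∨ blk (gD d) = 0 ∨ blk (gD c) = blk (gD d) ∨
    (gD c = 1 ∧ gD d = 3) ∨ (gD c = 3 ∧ gD d = 1) := by decide +kernel
theorem gD_tot : ∀ j, tot (fun c => decide (gD c = j)) ≤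
    (![16, 1, 99, 1, 99, 100, 100, 100] : Fin 8 → ℕ) j := by decide +kernel
theorem blk_ne : ∀ i j : Fin 8, i ≠ j → blk i ≠ blk j ∨ (i = 1 ∧ j = 2) ∨ (i = 2 ∧ j = 1) ∨
    (i = 3 ∧ j = 4) ∨ (i = 4 ∧ j = 3) := by decide +kernel

theorem block_sat (β : W → ℕ) (h0 : (univ.filter (fun v => β v = 0)).card = 16)
    (h2 : ∀ u, β u ≠ 0 → (univ.filter (fun v => β v = β u)).card = 100)
    (h3 : ∀ j, 1 ≤ j → j ≤ 5 → (univ.filter (fun v => β v = j)).card = 100)
    (u v : W) (huv : u ≠ v) (hn : ¬ (blockG β).Adj u v) : SatAt (blockG β) u v := by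
  have hn' : ¬ (β u = 0 ∨ β v = 0 ∨ β u = β v) := fun h => hn ⟨huv, h⟩
  push Not at hn'
  obtain ⟨hu, hv, hne⟩ := hn'
  have h4 : 2 < (((Finset.Icc 1 5).erase (β u)).erase (β v)).card := by
    have a1 := Finset.pred_card_le_card_erase (s := (Finset.Icc 1 5).erase (β u)) (a := β v)
    have a2 := Finset.pred_card_le_card_erase (s := Finset.Icc 1 5) (a := β u)
    have a3 : (Finset.Icc 1 5).card = 5 := by decide
    omega
  obtain ⟨j1, m1, j2, m2, j3, m3, d12, d13, d23⟩ := Finset.two_lt_card.1 h4
  simp only [Finset.mem_erase, Finset.mem_Icc] at m1 m2 m3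
  let g : Fin 6 → ℕ := ![0, β u, β v, j1, j2, j3]
  have hg : ∀ i j, i ≠ j → g i ≠ g j := by
    intro i j hij
    fin_cases i <;> fin_cases j <;>
      first
        | exact absurd rfl hij
        | (simp only [g, Fin.reduceFinMk, Matrix.cons_val]; omega)
  let F : ℕ → Finset W := fun j => univ.filter (fun x => β x = j)
  let P : Fin 8 → Finset W :=
    ![F 0, {u}, (F (β u)).erase u, {v}, (F (β v)).erase v, F j1, F j2, F j3]
  have hP : ∀ i, ∀ x ∈ P i, β x = g (blk i) := by
    intro i x hx
    fin_cases i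
    · exact (Finset.mem_filter.1 hx).2
    · have : x = u := Finset.mem_singleton.1 hx
      rw [this]; rfl
    · exact (Finset.mem_filter.1 (Finset.mem_of_mem_erase hx)).2
    · have : x = v := Finset.mem_singleton.1 hx
      rw [this]; rfl
    · exact (Finset.mem_filter.1 (Finset.mem_of_mem_erase hx)).2
    · exact (Finset.mem_filter.1 hx).2
    · exact (Finset.mem_filter.1 hx).2
    · exact (Finset.mem_filter.1 hx).2
  have hd : ∀ i j, i ≠ j → Disjoint (P i) (P j) := by
    intro i j hij
    have a1 : ∀ (w : W) (s : Finset W), Disjoint ({w} : Finset W) (s.erase w) := by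
      intro w s
      simp
    rcases blk_ne i j hij with h | ⟨rfl, rfl⟩ | ⟨rfl, rfl⟩ | ⟨rfl, rfl⟩ | ⟨rfl, rfl⟩
    · rw [Finset.disjoint_left]
      intro x hx hx'
      exact hg _ _ h ((hP i x hx).symm.trans (hP j x hx'))
    · exact a1 _ _
    · exact (a1 _ _).symm
    · exact a1 _ _
    · exact (a1 _ _).symm
  have hc : ∀ j, tot (fun c => decide (gD c = j)) ≤ (P j).card := by
    intro j
    refine le_trans (gD_tot j) ?_
    have a1 : ∀ w : W, β w ≠ 0 → 99 ≤ ((F (β w)).erase w).card := by
      intro w hw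
      have b1 := Finset.pred_card_le_card_erase (s := F (β w)) (a := w)
      have b2 : (F (β w)).card = 100 := h2 w hw
      omega
    fin_cases j
    · exact h0.ge
    · exact (Finset.card_singleton u).ge
    · exact a1 u hu
    · exact (Finset.card_singleton v).ge
    · exact a1 v hv
    · exact (h3 j1 m1.2.2.1 m1.2.2.2).ge
    · exact (h3 j2 m2.2.2.1 m2.2.2.2).ge
    · exact (h3 j3 m3.2.2.1 m3.2.2.2).ge
  obtain ⟨f, hinj, hf⟩ := exists_inj gD P hd hc
  refine ⟨f, hinj, fun a c hac => ?_⟩
  have hne' : f a ≠ f c := fun e => hac.1 (hinj e)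
  have ha := hP _ _ (hf a)
  have hc' := hP _ _ (hf c)
  rcases gD_R _ _ hac.2 with h | h | h | h | h
  · rw [h] at ha
    exact Or.inl ⟨hne', Or.inl ha⟩
  · rw [h] at hc'
    exact Or.inl ⟨hne', Or.inr (Or.inl hc')⟩
  · rw [h] at ha
    exact Or.inl ⟨hne', Or.inr (Or.inr (ha.trans hc'.symm))⟩
  · have e1 := hf a
    have e2 := hf c
    rw [h.1] at e1
    rw [h.2] at e2
    exact Or.inr (Or.inl ⟨Finset.mem_singleton.1 e1, Finset.mem_singleton.1 e2⟩)
  · have e1 := hf a
    have e2 := hf c
    rw [h.1] at e1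
    rw [h.2] at e2
    exact Or.inr (Or.inr ⟨Finset.mem_singleton.1 e1, Finset.mem_singleton.1 e2⟩)

theorem block_deg (β : W → ℕ) [DecidableRel (blockG β).Adj]
    (h0 : (univ.filter (fun v => β v = 0)).card ≤ 16)
    (h1 : ∀ j, j ≠ 0 → (univ.filter (fun v => β v = j)).card ≤ 100) :
    ∑ u, (blockG β).degree u ≤ 131 * Fintype.card W := by
  rw [← Finset.sum_filter_add_sum_filter_not univ (fun u => β u = 0)]
  have a1 : ∑ u ∈ univ.filter (fun u => β u = 0), (blockG β).degree u ≤ 16 * Fintype.card W := by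
    refine le_trans (Finset.sum_le_card_nsmul _ _ (Fintype.card W) (fun u _ => ?_)) ?_
    · exact ((blockG β).degree_lt_card_verts u).le
    · rw [smul_eq_mul]
      exact Nat.mul_le_mul_right _ h0
  have a2 : ∑ u ∈ univ.filter (fun u => ¬ β u = 0), (blockG β).degree u ≤
      115 * Fintype.card W := by
    refine le_trans (Finset.sum_le_card_nsmul _ _ 115 (fun u hu => ?_)) ?_
    · have hu' := (Finset.mem_filter.1 hu).2
      have b1 : (blockG β).neighborFinset u ⊆ univ.filter (fun v => β v = 0) ∪
          (univ.filter (fun v => β v = β u)).erase u := by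
        intro x hx
        rw [SimpleGraph.mem_neighborFinset] at hx
        obtain ⟨c1, c2⟩ := hx
        simp only [Finset.mem_union, Finset.mem_filter, Finset.mem_univ, true_and,
          Finset.mem_erase]
        rcases c2 with h | h | h
        · exact absurd h hu'
        · exact Or.inl h
        · exact Or.inr ⟨c1.symm, h.symm⟩
      have b2 := Finset.card_le_card b1
      have b3 := Finset.card_union_le (univ.filter (fun v => β v = 0))
        ((univ.filter (fun v => β v = β u)).erase u)
      have b4 : ((univ.filter (fun v => β v = β u)).erase u).card =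
          (univ.filter (fun v => β v = β u)).card - 1 :=
        Finset.card_erase_of_mem (Finset.mem_filter.2 ⟨Finset.mem_univ _, rfl⟩)
      have b5 := h1 _ hu'
      rw [SimpleGraph.card_neighborFinset_eq_degree] at b2
      omega
    · rw [smul_eq_mul, mul_comm]
      exact Nat.mul_le_mul_left _ (le_trans (Finset.card_filter_le _ _) Finset.card_univ.le)
  omega

end Pool.Agent.Lib.MP_ec92e0_co
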