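import Pool.Agent.Lib.MP_ec92e0_co.Struct
import Pool.Agent.Lib.MP_ec92e0_co.Upper

set_option autoImplicit false

namespace Pool.Agent.Lib.MP_ec92e0_co

open Finset Filter

def satSet (n : ℕ) : Set ℕ := {k : ℕ | ∃ G : SimpleGraph (Fin n), ¬ Cont G ∧
  (∀ u v : Fin n, u ≠ v → ¬ G.Adj u v → SatAt G u v) ∧ G.edgeSet.ncard = k}

theorem H_edge : H.Adj ⟨2, ⟨0, by decide⟩⟩ ⟨3, ⟨0, by decide⟩⟩ :=
  ⟨fun h => absurd (congrArg Sigma.fst h) (by decide), by decide⟩

theorem satSet_nonempty (n : ℕ) : (satSet n).Nonempty := by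
  classical
  have h0 : ¬ Cont (⊥ : SimpleGraph (Fin n)) := by
    rintro ⟨f, -, hf⟩
    exact hf _ _ H_edge
  obtain ⟨G, hG⟩ := (Set.toFinite {G : SimpleGraph (Fin n) | ¬ Cont G}).exists_maximal ⟨⊥, h0⟩
  refine ⟨_, G, hG.1, fun u v huv hn => ?_, rfl⟩
  by_contra hs
  have h1 : ¬ Cont (G ⊔ SimpleGraph.edge u v) := by
    rintro ⟨f, hinj, hf⟩
    refine hs ⟨f, hinj, fun a b hab => ?_⟩
    rcases hf a b hab with h | h
    · exact Or.inl h
    · rw [SimpleGraph.edge_adj] at h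
      exact Or.inr h.1
  have h2 : G ⊔ SimpleGraph.edge u v ≤ G := hG.2 h1 le_sup_left
  exact hn (h2 (Or.inr ((SimpleGraph.edge_adj _ _ _ _).2 ⟨Or.inl ⟨rfl, rfl⟩, huv⟩)))

theorem two_mul_ncard {n : ℕ} (G : SimpleGraph (Fin n)) [DecidableRel G.Adj] :
    ∑ u, G.degree u = 2 * G.edgeSet.ncard := by
  rw [SimpleGraph.sum_degrees_eq_twice_card_edges, ← SimpleGraph.coe_edgeFinset,
    Set.ncard_coe_finset]

theorem lower (t : ℕ) (ht : 10 ^ 22 ≤ t) :
    131001 * (17 + 100 * t) < 2000 * sInf (satSet (17 + 100 * t)) := by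
  classical
  obtain ⟨G, h1, h2, h3⟩ := Nat.sInf_mem (satSet_nonempty (17 + 100 * t))
  by_contra hlt
  have h4 := two_mul_ncard G
  obtain ⟨r, hr⟩ := card_of_sparse G h1 h2 (by rw [Fintype.card_fin]; omega)
    (by rw [Fintype.card_fin]; omega)
  rw [Fintype.card_fin] at hr
  omega

theorem fiber_card (n a b : ℕ) (p : ℕ → Prop) [DecidablePred p]
    (h : ∀ x, (x < n ∧ p x) ↔ (a ≤ x ∧ x < b)) :
    (univ.filter (fun v : Fin n => p v.1)).card = b - a := by
  rw [← Nat.card_Ico, ← Finset.card_map Fin.valEmbedding]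
  congr 1
  ext x
  simp only [Finset.mem_map, Finset.mem_filter, Finset.mem_univ, true_and,
    Fin.valEmbedding_apply, Finset.mem_Ico]
  rw [← h]
  constructor
  · rintro ⟨v, hv, rfl⟩
    exact ⟨v.2, hv⟩
  · rintro ⟨h1, h2⟩
    exact ⟨⟨x, h1⟩, h2, rfl⟩

theorem upper (t : ℕ) (ht : 5 ≤ t) :
    2 * sInf (satSet (16 + 100 * t)) ≤ 131 * (16 + 100 * t) := by
  classical
  let β : Fin (16 + 100 * t) → ℕ := fun v => (v.1 + 84) / 100
  have h0 : (univ.filter (fun v => β v = 0)).card = 16 :=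
    fiber_card (16 + 100 * t) 0 16 (fun x => (x + 84) / 100 = 0) (fun x => by omega)
  have h3 : ∀ j, 1 ≤ j → j ≤ t → (univ.filter (fun v => β v = j)).card = 100 := by
    intro j h1 h2
    have := fiber_card (16 + 100 * t) (100 * j - 84) (100 * j + 16)
      (fun x => (x + 84) / 100 = j) (fun x => by omega)
    rw [show 100 * j + 16 - (100 * j - 84) = 100 by omega] at this
    exact this
  have h1 : ∀ j, j ≠ 0 → (univ.filter (fun v => β v = j)).card ≤ 100 := by
    intro j hj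
    by_cases hjt : j ≤ t
    · exact (h3 j (by omega) hjt).le
    · have := fiber_card (16 + 100 * t) 0 0 (fun x => (x + 84) / 100 = j) (fun x => by omega)
      exact le_trans (le_of_eq this) (by omega)
  have h2 : ∀ u, β u ≠ 0 → (univ.filter (fun v => β v = β u)).card = 100 := by
    intro u hu
    refine h3 _ (by omega) ?_
    have := u.2
    simp only [β]
    omega
  have hmem : (blockG β).edgeSet.ncard ∈ satSet (16 + 100 * t) :=
    ⟨blockG β, block_free β h0.le h1,
      block_sat β h0 h2 (fun j a b => h3 j a (by omega)), rfl⟩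
  have h4 := Nat.sInf_le hmem
  have h5 := block_deg β h0.le h1
  rw [two_mul_ncard, Fintype.card_fin] at h5
  omega

theorem not_tendsto (L : ℝ) :
    ¬ Tendsto (fun n : ℕ => ((sInf (satSet n) : ℕ) : ℝ) / (n : ℝ)) atTop (nhds L) := by
  intro h
  have t1 : Tendsto (fun t : ℕ => 16 + 100 * t) atTop atTop :=
    tendsto_atTop_mono (fun t => by show t ≤ _; omega) tendsto_id
  have t2 : Tendsto (fun t : ℕ => 17 + 100 * t) atTop atTop :=
    tendsto_atTop_mono (fun t => by show t ≤ _; omega) tendsto_id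
  have u1 : L ≤ 131 / 2 := by
    refine le_of_tendsto (h.comp t1) ?_
    filter_upwards [eventually_ge_atTop 5] with t ht
    have e1 : ((2 * sInf (satSet (16 + 100 * t)) : ℕ) : ℝ) ≤ ((131 * (16 + 100 * t) : ℕ) : ℝ) :=
      Nat.cast_le.2 (upper t ht)
    have e2 : (0 : ℝ) < ((16 + 100 * t : ℕ) : ℝ) := Nat.cast_pos.2 (by omega)
    simp only [Function.comp]
    rw [div_le_iff₀ e2]
    rw [Nat.cast_mul, Nat.cast_mul] at e1
    simp only [Nat.cast_ofNat] at e1
    linarith
  have u2 : 131001 / 2000 ≤ L := by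
    refine ge_of_tendsto (h.comp t2) ?_
    filter_upwards [eventually_ge_atTop (10 ^ 22)] with t ht
    have e1 : ((131001 * (17 + 100 * t) : ℕ) : ℝ) ≤
        ((2000 * sInf (satSet (17 + 100 * t)) : ℕ) : ℝ) :=
      Nat.cast_le.2 (lower t ht).le
    have e2 : (0 : ℝ) < ((17 + 100 * t : ℕ) : ℝ) := Nat.cast_pos.2 (by omega)
    simp only [Function.comp]
    rw [le_div_iff₀ e2]
    rw [Nat.cast_mul, Nat.cast_mul] at e1
    simp only [Nat.cast_ofNat] at e1
    linarith
  linarith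

theorem main :
    ¬ (∀ (m : ℕ) (H : SimpleGraph (Fin m)), H.edgeSet.Nonempty →
      ∃ L : ℝ, Filter.Tendsto
        (fun n : ℕ => ((sInf {k : ℕ | ∃ G : SimpleGraph (Fin n),
            (¬ ∃ f : Fin m → Fin n, Function.Injective f ∧
                ∀ a b : Fin m, H.Adj a b → G.Adj (f a) (f b)) ∧
            (∀ u v : Fin n, u ≠ v → ¬ G.Adj u v →
              ∃ f : Fin m → Fin n, Function.Injective f ∧
                ∀ a b : Fin m, H.Adj a b →
                  (G.Adj (f a) (f b) ∨ (f a = u ∧ f b = v) ∨ (f a = v ∧ f b = u))) ∧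
            G.edgeSet.ncard = k} : ℕ) : ℝ) / (n : ℝ))
        Filter.atTop (nhds L)) := by
  intro hall
  let e : Fin (Fintype.card V) ≃ V := (Fintype.equivFin V).symm
  have trans : ∀ {W : Type} (R : W → W → Prop),
      (∃ f : Fin (Fintype.card V) → W, Function.Injective f ∧
        ∀ a b, (H.comap e).Adj a b → R (f a) (f b)) ↔
      (∃ f : V → W, Function.Injective f ∧ ∀ a b, H.Adj a b → R (f a) (f b)) := by
    intro W R
    constructor
    · rintro ⟨f, hinj, hf⟩
      refine ⟨f ∘ e.symm, hinj.comp e.symm.injective, fun a b hab => hf _ _ ?_⟩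
      rw [SimpleGraph.comap_adj, e.apply_symm_apply, e.apply_symm_apply]
      exact hab
    · rintro ⟨f, hinj, hf⟩
      exact ⟨f ∘ e, hinj.comp e.injective, fun a b hab => hf _ _ hab⟩
  obtain ⟨L, hL⟩ := hall _ (H.comap e) ⟨s(e.symm ⟨2, ⟨0, by decide⟩⟩, e.symm ⟨3, ⟨0, by decide⟩⟩), by
    rw [SimpleGraph.mem_edgeSet, SimpleGraph.comap_adj, e.apply_symm_apply, e.apply_symm_apply]
    exact H_edge⟩
  refine not_tendsto L (hL.congr (fun n => ?_))
  refine congrArg (fun s : Set ℕ => ((sInf s : ℕ) : ℝ) / (n : ℝ)) ?_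
  ext k
  refine exists_congr (fun G => and_congr (not_congr (trans G.Adj)) (and_congr_left' ?_))
  refine forall_congr' (fun u => forall_congr' (fun v => forall_congr' (fun _ =>
    forall_congr' (fun _ => ?_))))
  exact trans (fun x y => G.Adj x y ∨ (x = u ∧ y = v) ∨ (x = v ∧ y = u))

end Pool.Agent.Lib.MP_ec92e0_co
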