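import Pool.Agent.Lib.MP_ec92e0_co.Types

set_option autoImplicit false

namespace Pool.Agent.Lib.MP_ec92e0_co

open SimpleGraph

variable {W V Y Z : Type*}

/-- `k` copies of `G` together with the cliques given by the fibres of `c`. -/
def uni (G : SimpleGraph V) (k : ℕ) (c : Y → Z) : SimpleGraph ((Fin k × V) ⊕ Y) where
  Adj x y := match x, y with
    | .inl a, .inl b => a.1 = b.1 ∧ G.Adj a.2 b.2
    | .inr a, .inr b => a ≠ b ∧ c a = c b
    | _, _ => False
  symm := ⟨by
    rintro (a | a) (b | b) h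
    · exact ⟨h.1.symm, h.2.symm⟩
    · exact h
    · exact h
    · exact ⟨h.1.symm, h.2.symm⟩⟩
  loopless := ⟨by
    rintro (a | a) h
    · exact G.loopless.irrefl _ h.2
    · exact h.1 rfl⟩

/-- The label of the piece. -/
def lab (k : ℕ) (c : Y → Z) : (Fin k × V) ⊕ Y → Fin k ⊕ Z := Sum.map Prod.fst c

theorem lab_adj {G : SimpleGraph V} {k : ℕ} {c : Y → Z} {x y : (Fin k × V) ⊕ Y}
    (h : (uni G k c).Adj x y) : lab k c x = lab k c y := by
  rcases x with a | a <;> rcases y with b | b
  · simp [lab, h.1]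
  · exact h.elim
  · exact h.elim
  · simp [lab, h.2]

theorem uni_free [Fintype W] [Finite Y] {H : SimpleGraph W} (hH : H.Connected)
    {G : SimpleGraph V} (hG : ¬ Cont H G) (k : ℕ) (c : Y → Z)
    (hhi : ∀ y, {y' | c y' = c y}.ncard < Fintype.card W) : ¬ Cont H (uni G k c) := by
  rintro ⟨f, hf, h⟩
  obtain ⟨r⟩ := hH.nonempty
  have hlab : ∀ a, lab k c (f a) = lab k c (f r) := by
    intro a
    obtain ⟨w⟩ := hH a r
    induction w with
    | nil => rfl
    | cons hab w ih => exact (lab_adj (h _ _ hab)).trans ih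
  rcases hr : f r with ⟨i, u⟩ | y
  · have : ∀ a, ∃ v, f a = .inl (i, v) := by
      intro a
      have := hlab a
      rw [hr] at this
      rcases ha : f a with ⟨j, v⟩ | y
      · rw [ha] at this
        simp only [lab, Sum.map_inl, Sum.inl.injEq] at this
        exact ⟨v, by rw [this]⟩
      · rw [ha] at this
        simp [lab] at this
    choose g hg using this
    refine hG ⟨g, fun a b hab => hf (by rw [hg, hg, hab]), fun a b hab => ?_⟩
    have := h a b hab
    rw [hg, hg] at this
    exact this.2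
  · have : ∀ a, ∃ v, c v = c y ∧ f a = .inr v := by
      intro a
      have := hlab a
      rw [hr] at this
      rcases ha : f a with ⟨j, v⟩ | y'
      · rw [ha] at this
        simp [lab] at this
      · rw [ha] at this
        simp only [lab, Sum.map_inr, Sum.inr.injEq] at this
        exact ⟨y', this, rfl⟩
    choose g hg1 hg using this
    have hinj : Function.Injective g := fun a b hab => hf (by rw [hg, hg, hab])
    have h1 := Set.ncard_le_ncard_of_injOn g (s := Set.univ) (t := {y' | c y' = c y})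
      (fun a _ => hg1 a) hinj.injOn
    rw [Set.ncard_univ, Nat.card_eq_fintype_card] at h1
    exact absurd (hhi y) (not_lt.mpr h1)

theorem emb_lift {H : SimpleGraph W} {G : SimpleGraph V} {p q : W} {u : V}
    (h : Emb H G p q u Set.univ) {k : ℕ} (c : Y → Z) (i : Fin k) :
    Emb H (uni G k c) p q (.inl (i, u)) {x | lab k c x = .inl i} := by
  obtain ⟨f, h1, h2, -, h4⟩ := h
  refine ⟨fun a => .inl (i, f a), by simp [h1], fun a ha b hb hab => h2 ha hb (by simpa using hab),
    fun a _ => by simp [lab], fun a ha b hb hab => ⟨rfl, h4 a ha b hb hab⟩⟩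

theorem emb_clique [Finite W] [Finite Y] {H : SimpleGraph W} (G : SimpleGraph V) {p q : W} (k : ℕ)
    (c : Y → Z) (y : Y) (h : (Sd H p q).ncard ≤ {y' | c y' = c y}.ncard) :
    Emb H (uni G k c) p q (.inr y) {x | lab k c x = .inr (c y)} := by
  obtain ⟨f, h1, h2, h3⟩ := exists_rooted (Sd H p q) {y' | c y' = c y} (Set.toFinite _)
    (Set.toFinite _) h (sd_self H p q) (y := y) rfl
  refine ⟨fun a => .inr (f a), by simp [h1], fun a ha b hb hab => h2 ha hb (by simpa using hab),
    fun a ha => by simpa [lab] using h3 a ha, fun a ha b hb hab =>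
      ⟨fun h => hab.ne (h2 ha hb h), (h3 a ha).trans (h3 b hb).symm⟩⟩

theorem sd_card [Fintype W] {H : SimpleGraph W} (hT : H.IsTree) {p q : W} (hpq : H.Adj p q) :
    (Sd H p q).ncard + (Sd H q p).ncard ≤ Fintype.card W := by
  rw [← Set.ncard_union_eq (Set.disjoint_left.mpr fun x h1 h2 => sd_disj hT.isAcyclic hpq h1 h2),
    ← Nat.card_eq_fintype_card]
  exact Set.ncard_le_card _

theorem uni_creates [Fintype W] [Finite V] [Finite Y] {H : SimpleGraph W} (hT : H.IsTree)
    (hd : H.ediam ≤ 4) {G : SimpleGraph V} (hG : Sat H G) (k : ℕ) (c : Y → Z)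
    (hlo : ∀ y, Fintype.card W ≤ 2 * {y' | c y' = c y}.ncard + 1) (i : Fin k) {u : V}
    (hu : Fintype.card W < (cls H G u).ncard) (x : (Fin k × V) ⊕ Y) (hx : .inl (i, u) ≠ x)
    (hadj : ¬ (uni G k c).Adj (.inl (i, u)) x) : Creates H (uni G k c) (.inl (i, u)) x := by
  rcases x with ⟨j, v⟩ | y
  · by_cases hij : i = j
    · subst hij
      obtain ⟨f, hf, h⟩ := hG.2 u v (fun h => hx (by rw [h])) (fun h => hadj ⟨rfl, h⟩)
      refine ⟨fun a => .inl (i, f a), fun a b hab => hf (by simpa using hab), fun a b hab => ?_⟩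
      rcases h a b hab with h | h | h
      · exact Or.inl ⟨rfl, h⟩
      · simp [h.1, h.2]
      · simp [h.1, h.2]
    · obtain ⟨p, q, h1, h2⟩ := compat_all hT hd hG hu v
      refine creates_of_emb hT h1.1 ?_ (emb_lift h1.2 c i) (emb_lift h2.2 c j)
      refine Set.disjoint_left.mpr fun x h1 h2 => hij ?_
      exact Sum.inl_injective (Eq.trans (Eq.symm h1) h2)
  · obtain ⟨p, q, h1, h2⟩ := self_compat hT.isAcyclic hG hu
    have hdis : Disjoint {x : (Fin k × V) ⊕ Y | lab k c x = .inl i}
        {x | lab k c x = .inr (c y)} := by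
      refine Set.disjoint_left.mpr fun x h1 h2 => ?_
      exact Sum.inl_ne_inr (Eq.trans (Eq.symm h1) h2)
    have h3 := sd_card hT (p := p) (q := q) h1.1
    have h4 := hlo y
    by_cases h : (Sd H q p).ncard ≤ {y' | c y' = c y}.ncard
    · exact creates_of_emb hT h1.1 hdis (emb_lift h1.2 c i) (emb_clique G k c y h)
    · exact creates_of_emb hT h2.1 hdis (emb_lift h2.2 c i) (emb_clique G k c (p := p) (q := q) y (by omega))

/-- The amplification step. -/
theorem step [Fintype W] [Fintype V] [Fintype Y] {H : SimpleGraph W} (hT : H.IsTree)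
    (hd : H.ediam ≤ 4) {G : SimpleGraph V} (hG : Sat H G) (k : ℕ) (c : Y → Z)
    (hlo : ∀ y, Fintype.card W ≤ 2 * {y' | c y' = c y}.ncard + 1)
    (hhi : ∀ y, {y' | c y' = c y}.ncard < Fintype.card W) :
    ∃ G' : SimpleGraph ((Fin k × V) ⊕ Y), Sat H G' ∧ G'.edgeSet.ncard ≤ k * G.edgeSet.ncard +
      Fintype.card W * (k * (Fintype.card W * 2 ^ (Fintype.card W * Fintype.card W)) +
        Fintype.card Y) := by
  classical
  obtain ⟨G', hsat, hadd⟩ := exists_completion H (uni G k c) (uni_free hT.connected hG.1 k c hhi)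
  refine ⟨G', hsat, ?_⟩
  set S : Finset V := {u | (cls H G u).ncard ≤ Fintype.card W}.toFinset with hS
  set E : Finset ((Fin k × V) ⊕ Y) := (Finset.univ ×ˢ S).disjSum Finset.univ with hE
  have hEc : E.card ≤ k * (Fintype.card W * 2 ^ (Fintype.card W * Fintype.card W)) +
      Fintype.card Y := by
    rw [hE, Finset.card_disjSum, Finset.card_product, Finset.card_univ, Finset.card_univ,
      Fintype.card_fin, hS, ← Set.ncard_eq_toFinset_card']
    have := small_card H G
    gcongr
  have hnot : ∀ x, x ∉ E → ∃ i u, x = .inl (i, u) ∧ Fintype.card W < (cls H G u).ncard := by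
    rintro (⟨i, u⟩ | y) hx
    · refine ⟨i, u, rfl, ?_⟩
      by_contra h
      exact hx (by simp [hE, hS, not_lt.mp h])
    · exact absurd (by simp [hE]) hx
  have hsub : G'.edgeSet ⊆ (fun x : Fin k × Sym2 V => x.2.map (fun v => Sum.inl (x.1, v))) ''
      (Set.univ ×ˢ G.edgeSet) ∪ ein G' E := by
    intro e he
    induction e using Sym2.ind with
    | _ a b =>
      have hab : G'.Adj a b := he
      rcases hadd a b hab with h | ⟨h1, h2, h3⟩
      · rcases a with ⟨i, u⟩ | y <;> rcases b with ⟨j, v⟩ | y'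
        · left
          obtain ⟨h1, h2⟩ := h
          dsimp only at h1 h2
          subst h1
          exact ⟨(i, s(u, v)), ⟨trivial, h2⟩, by simp⟩
        · exact h.elim
        · exact h.elim
        · right
          refine ⟨he, fun x hx => ?_⟩
          rcases Sym2.mem_iff.mp hx with rfl | rfl <;> simp [hE]
      · right
        refine ⟨he, fun x hx => ?_⟩
        by_contra hxE
        obtain ⟨i, u, hx', hu⟩ := hnot x hxE
        rcases Sym2.mem_iff.mp hx with rfl | rfl
        · subst hx'
          exact h3 (uni_creates hT hd hG k c hlo i hu b h1 h2)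
        · subst hx'
          exact h3 (uni_creates hT hd hG k c hlo i hu a h1.symm (fun h => h2 h.symm)).symm
  have h1 := (Set.ncard_le_ncard hsub (Set.toFinite _)).trans (Set.ncard_union_le _ _)
  have h2 := Set.ncard_image_le (s := (Set.univ ×ˢ G.edgeSet : Set (Fin k × Sym2 V)))
    (f := fun x : Fin k × Sym2 V => x.2.map (fun v => (Sum.inl (x.1, v) : (Fin k × V) ⊕ Y)))
  rw [Set.ncard_prod, Set.ncard_univ, Nat.card_eq_fintype_card, Fintype.card_fin] at h2
  have h3 := ein_le hT G' hsat.1 E
  have h4 := Nat.mul_le_mul_left (Fintype.card W) hEc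
  omega

end Pool.Agent.Lib.MP_ec92e0_co
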