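import Pool.Agent.Lib.MP_ec92e0_co.Count

set_option autoImplicit false

namespace Pool.Agent.Lib.MP_ec92e0_co

open Finset

theorem cont_of_groups {W : Type} (G : SimpleGraph W) {k : ℕ} (gc : Fin 14 → Fin k)
    (P : Fin k → Finset W) (hd : ∀ i j, i ≠ j → Disjoint (P i) (P j))
    (hc : ∀ j, tot (fun c => decide (gc c = j)) ≤ (P j).card)
    (R : Fin k → Fin k → Prop) (hR : ∀ c d, M c d = true → R (gc c) (gc d))
    (hadj : ∀ i j, R i j → ∀ x ∈ P i, ∀ y ∈ P j, x ≠ y → G.Adj x y) : Cont G := by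
  obtain ⟨f, hinj, hf⟩ := exists_inj gc P hd hc
  exact ⟨f, hinj, fun a b hab =>
    hadj _ _ (hR _ _ hab.2) _ (hf a) _ (hf b) (fun e => hab.1 (hinj e))⟩

def R8 (i j : Fin 8) : Prop :=
  i = 0 ∨ j = 0 ∨ i = j ∨ (i = 1 ∧ j = 2) ∨ (i = 2 ∧ j = 1) ∨ (i = 1 ∧ j = 3) ∨ (i = 3 ∧ j = 1)

instance (i j : Fin 8) : Decidable (R8 i j) := by unfold R8; infer_instance

theorem cont_overlap {W : Type} [DecidableEq W] (G : SimpleGraph W) (S I K K' : Finset W)
    (D : Fin 4 → Finset W) (hS : ∀ x ∈ S, ∀ y, x ≠ y → G.Adj x y)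
    (hK : G.IsClique (K : Set W)) (hK' : G.IsClique (K' : Set W))
    (hD : ∀ j, G.IsClique (D j : Set W)) (hI : I ⊆ K) (hI' : I ⊆ K')
    (dK : Disjoint S K) (dK' : Disjoint S K') (dD : ∀ j, Disjoint S (D j))
    (dKD : ∀ j, Disjoint K (D j)) (dKD' : ∀ j, Disjoint K' (D j))
    (dDD : ∀ i j, i ≠ j → Disjoint (D i) (D j))
    (gc : Fin 14 → Fin 8) (hR : ∀ c d, M c d = true → R8 (gc c) (gc d))
    (hc : ∀ j, tot (fun c => decide (gc c = j)) ≤
      ((![S, I, K \ I, K' \ K, D 0, D 1, D 2, D 3] : Fin 8 → Finset W) j).card) : Cont G := by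
  have cI : G.IsClique (I : Set W) := hK.subset (Finset.coe_subset.2 hI)
  have cKI : G.IsClique ((K \ I : Finset W) : Set W) :=
    hK.subset (Finset.coe_subset.2 Finset.sdiff_subset)
  have cKK : G.IsClique ((K' \ K : Finset W) : Set W) :=
    hK'.subset (Finset.coe_subset.2 Finset.sdiff_subset)
  have cS : G.IsClique (S : Set W) := fun x hx y _ hxy => hS x hx y hxy
  refine cont_of_groups G gc _ ?_ hc R8 hR ?_
  · have hlt : ∀ i j : Fin 8, i < j →
        Disjoint ((![S, I, K \ I, K' \ K, D 0, D 1, D 2, D 3] : Fin 8 → Finset W) i)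
          ((![S, I, K \ I, K' \ K, D 0, D 1, D 2, D 3] : Fin 8 → Finset W) j) := by
      have a1 : Disjoint S I := dK.mono_right hI
      have a2 : Disjoint S (K \ I) := dK.mono_right Finset.sdiff_subset
      have a3 : Disjoint S (K' \ K) := dK'.mono_right Finset.sdiff_subset
      have a4 : Disjoint I (K \ I) := Finset.disjoint_sdiff
      have a5 : Disjoint I (K' \ K) := Finset.disjoint_sdiff.mono_left hI
      have a6 : Disjoint (K \ I) (K' \ K) := Finset.disjoint_sdiff.mono_left Finset.sdiff_subset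
      have a7 : ∀ j, Disjoint I (D j) := fun j => (dKD j).mono_left hI
      have a8 : ∀ j, Disjoint (K \ I) (D j) := fun j => (dKD j).mono_left Finset.sdiff_subset
      have a9 : ∀ j, Disjoint (K' \ K) (D j) := fun j => (dKD' j).mono_left Finset.sdiff_subset
      intro i j hij
      fin_cases i <;> fin_cases j <;>
        first
          | exact absurd hij (by decide)
          | exact a1 | exact a2 | exact a3 | exact a4 | exact a5 | exact a6
          | exact dD _ | exact a7 _ | exact a8 _ | exact a9 _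
          | exact dDD _ _ (by decide)
    intro i j hij
    rcases lt_or_gt_of_ne hij with h | h
    · exact hlt i j h
    · exact (hlt j i h).symm
  · intro i j hij x hx y hy hxy
    rcases hij with rfl | rfl | rfl | ⟨rfl, rfl⟩ | ⟨rfl, rfl⟩ | ⟨rfl, rfl⟩ | ⟨rfl, rfl⟩
    · exact hS x hx y hxy
    · exact (hS y hy x hxy.symm).symm
    · fin_cases i
      · exact cS hx hy hxy
      · exact cI hx hy hxy
      · exact cKI hx hy hxy
      · exact cKK hx hy hxy
      · exact hD 0 hx hy hxy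
      · exact hD 1 hx hy hxy
      · exact hD 2 hx hy hxy
      · exact hD 3 hx hy hxy
    · exact hK (hI hx) (Finset.sdiff_subset hy) hxy
    · exact hK (Finset.sdiff_subset hx) (hI hy) hxy
    · exact hK' (hI' hx) (Finset.sdiff_subset hy) hxy
    · exact hK' (Finset.sdiff_subset hx) (hI' hy) hxy

/-- classes: X1 X0 x0 y0 Y0 Y1 A a J z Ra Rb R1 R2 -/
def gA : Fin 14 → Fin 8 := ![4, 0, 0, 0, 0, 5, 1, 3, 0, 0, 1, 2, 6, 7]
def gB : Fin 14 → Fin 8 := ![4, 0, 0, 0, 0, 5, 0, 0, 2, 1, 6, 6, 2, 3]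

theorem gA_R : ∀ c d, M c d = true → R8 (gA c) (gA d) := by decide +kernel
theorem gB_R : ∀ c d, M c d = true → R8 (gB c) (gB d) := by decide +kernel
theorem gA_tot : ∀ j, tot (fun c => decide (gA c = j)) ≤
    (![16, 34, 66, 1, 100, 100, 100, 100] : Fin 8 → ℕ) j := by decide +kernel
theorem gB_tot : ∀ j, tot (fun c => decide (gB c = j)) ≤
    (![16, 1, 99, 67, 100, 100, 100, 100] : Fin 8 → ℕ) j := by decide +kernel

theorem cont_of_two {W : Type} [DecidableEq W] (G : SimpleGraph W) (S K K' : Finset W)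
    (D : Fin 4 → Finset W) (hS : ∀ x ∈ S, ∀ y, x ≠ y → G.Adj x y)
    (hK : G.IsClique (K : Set W)) (hK' : G.IsClique (K' : Set W))
    (hD : ∀ j, G.IsClique (D j : Set W))
    (dK : Disjoint S K) (dK' : Disjoint S K') (dD : ∀ j, Disjoint S (D j))
    (dKD : ∀ j, Disjoint K (D j)) (dKD' : ∀ j, Disjoint K' (D j))
    (dDD : ∀ i j, i ≠ j → Disjoint (D i) (D j))
    (cS : S.card = 16) (cK : K.card = 100) (cK' : K'.card = 100) (cD : ∀ j, (D j).card = 100)
    (hne : K ≠ K') (hint : (K ∩ K').Nonempty) : Cont G := by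
  have hsd : (K' \ K).card + (K ∩ K').card = 100 := by
    rw [Finset.inter_comm, Finset.card_sdiff_add_card_inter, cK']
  have hpos : 1 ≤ (K' \ K).card := by
    by_contra h
    have h0 : K' \ K = ∅ := Finset.card_eq_zero.1 (by omega)
    have h1 : K' ⊆ K := Finset.sdiff_eq_empty_iff_subset.1 h0
    exact hne (Finset.eq_of_subset_of_card_le h1 (by omega)).symm
  have hint' := Finset.card_pos.2 hint
  by_cases h34 : 34 ≤ (K ∩ K').card
  · obtain ⟨I, hI, cI⟩ := Finset.exists_subset_card_eq h34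
    have hI1 : I ⊆ K := hI.trans Finset.inter_subset_left
    have hI2 : I ⊆ K' := hI.trans Finset.inter_subset_right
    have cKI : (K \ I).card = 66 := by rw [Finset.card_sdiff_of_subset hI1, cK, cI]
    refine cont_overlap G S I K K' D hS hK hK' hD hI1 hI2 dK dK' dD dKD dKD' dDD gA gA_R
      (fun j => le_trans (gA_tot j) ?_)
    fin_cases j
    · exact cS.ge
    · exact cI.ge
    · exact cKI.ge
    · exact hpos
    · exact (cD 0).ge
    · exact (cD 1).ge
    · exact (cD 2).ge
    · exact (cD 3).ge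
  · obtain ⟨I, hI, cI⟩ := Finset.exists_subset_card_eq (show 1 ≤ (K ∩ K').card from hint')
    have hI1 : I ⊆ K := hI.trans Finset.inter_subset_left
    have hI2 : I ⊆ K' := hI.trans Finset.inter_subset_right
    have cKI : (K \ I).card = 99 := by rw [Finset.card_sdiff_of_subset hI1, cK, cI]
    have h67 : 67 ≤ (K' \ K).card := by omega
    refine cont_overlap G S I K K' D hS hK hK' hD hI1 hI2 dK dK' dD dKD dKD' dDD gB gB_R
      (fun j => le_trans (gB_tot j) ?_)
    fin_cases j
    · exact cS.ge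
    · exact cI.ge
    · exact cKI.ge
    · exact h67
    · exact (cD 0).ge
    · exact (cD 1).ge
    · exact (cD 2).ge
    · exact (cD 3).ge

variable {W : Type} [Fintype W] [DecidableEq W] (G : SimpleGraph W) [DecidableRel G.Adj]

theorem comp_clique (S C : Finset W) (h : Comp G S C) : G.IsClique (C : Set W) := by
  intro x hx y hy hxy
  rw [← SimpleGraph.mem_neighborFinset, h.2.2 x hx]
  exact Finset.mem_union_right _ (Finset.mem_erase.2 ⟨hxy.symm, hy⟩)

theorem comp_eq (S C K : Finset W) (h : Comp G S C) (hK : G.IsClique (K : Set W))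
    (cK : K.card = 100) (dK : Disjoint S K) (v : W) (hv : v ∈ C) (hv' : v ∈ K) : K = C := by
  refine Finset.eq_of_subset_of_card_le (fun x hx => ?_) (by rw [cK, h.1])
  by_cases hxv : x = v
  · rw [hxv]; exact hv
  · have h1 : x ∈ G.neighborFinset v :=
      (SimpleGraph.mem_neighborFinset _ _ _).2 (hK hv' hx (fun e => hxv e.symm))
    rw [h.2.2 v hv] at h1
    rcases Finset.mem_union.1 h1 with h2 | h2
    · exact absurd hx (Finset.disjoint_left.1 dK h2)
    · exact Finset.mem_of_mem_erase h2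

theorem comp_disj (S C C' : Finset W) (h : Comp G S C) (h' : Comp G S C') (u : W) (hu : u ∈ C')
    (hu' : u ∉ C) : Disjoint C C' := by
  rw [Finset.disjoint_left]
  intro v hv hv'
  have := comp_eq G S C C' h (comp_clique G S C' h') h'.1 h'.2.1 v hv hv'
  exact hu' (this ▸ hu)

theorem four_comps (S U : Finset W) (hU : 400 < U.card) (h : ∀ u ∈ U, ∃ C, u ∈ C ∧ Comp G S C) :
    ∃ D : Fin 4 → Finset W, (∀ j, Comp G S (D j)) ∧ ∀ i j, i ≠ j → Disjoint (D i) (D j) := by
  have pick : ∀ B : Finset W, B.card ≤ 400 → ∃ u C, u ∈ C ∧ u ∉ B ∧ Comp G S C := by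
    intro B hB
    obtain ⟨u, hu, hu'⟩ := Finset.exists_mem_notMem_of_card_lt_card (lt_of_le_of_lt hB hU)
    obtain ⟨C, h1, h2⟩ := h u hu
    exact ⟨u, C, h1, hu', h2⟩
  obtain ⟨u0, C0, -, -, h0⟩ := pick ∅ (by simp)
  obtain ⟨u1, C1, m1, n1, h1⟩ := pick C0 (by rw [h0.1]; omega)
  obtain ⟨u2, C2, m2, n2, h2⟩ := pick (C0 ∪ C1) (by
    have := Finset.card_union_le C0 C1
    rw [h0.1, h1.1] at this; omega)
  obtain ⟨u3, C3, m3, n3, h3⟩ := pick (C0 ∪ C1 ∪ C2) (by
    have := Finset.card_union_le C0 C1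
    have := Finset.card_union_le (C0 ∪ C1) C2
    have := h0.1
    have := h1.1
    have := h2.1
    omega)
  simp only [Finset.mem_union, not_or] at n2 n3
  have d01 := comp_disj G S C0 C1 h0 h1 u1 m1 n1
  have d02 := comp_disj G S C0 C2 h0 h2 u2 m2 n2.1
  have d12 := comp_disj G S C1 C2 h1 h2 u2 m2 n2.2
  have d03 := comp_disj G S C0 C3 h0 h3 u3 m3 n3.1.1
  have d13 := comp_disj G S C1 C3 h1 h3 u3 m3 n3.1.2
  have d23 := comp_disj G S C2 C3 h2 h3 u3 m3 n3.2
  refine ⟨![C0, C1, C2, C3], fun j => ?_, fun i j hij => ?_⟩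
  · fin_cases j
    · exact h0
    · exact h1
    · exact h2
    · exact h3
  · fin_cases i <;> fin_cases j <;>
      first
        | exact absurd rfl hij
        | exact d01 | exact d02 | exact d12 | exact d03 | exact d13 | exact d23
        | exact d01.symm | exact d02.symm | exact d12.symm | exact d03.symm | exact d13.symm
        | exact d23.symm

theorem br_of_comp (hA : ∀ u v, u ≠ v → ¬ G.Adj u v → Alt G u v) (S C : Finset W)
    (cS : S.card = 16) (h : Comp G S C) (q : W) (hq : q ∉ S) (hq' : q ∉ C) : Br G S q := by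
  obtain ⟨u, hu⟩ : C.Nonempty := Finset.card_pos.1 (by rw [h.1]; omega)
  have hnadj : ∀ x ∈ C, ¬ G.Adj x q := by
    intro x hx hadj
    rw [← SimpleGraph.mem_neighborFinset, h.2.2 x hx] at hadj
    rcases Finset.mem_union.1 hadj with h2 | h2
    · exact hq h2
    · exact hq' (Finset.mem_of_mem_erase h2)
  have hsub : G.neighborFinset u ∩ G.neighborFinset q ⊆ S := by
    intro x hx
    obtain ⟨h1, h2⟩ := Finset.mem_inter.1 hx
    rw [h.2.2 u hu] at h1
    rcases Finset.mem_union.1 h1 with h3 | h3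
    · exact h3
    · exact absurd ((SimpleGraph.mem_neighborFinset _ _ _).1 h2).symm
        (hnadj x (Finset.mem_of_mem_erase h3))
  rcases hA u q (fun e => hq' (e ▸ hu)) (hnadj u hu) with ⟨h1, -⟩ | ⟨S', cS', -, hbu, hbq⟩
  · have := Finset.card_le_card hsub
    omega
  · have h1 : S' ⊆ S := by
      refine Finset.Subset.trans (fun x hx => ?_) hsub
      simp only [Finset.mem_inter, SimpleGraph.mem_neighborFinset]
      exact ⟨hbu.1 x hx, hbq.1 x hx⟩
    have h2 : S' = S := Finset.eq_of_subset_of_card_le h1 (by omega)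
    exact h2 ▸ hbq

theorem card_of_sparse (hfree : ¬ Cont G) (hsat : ∀ u v, u ≠ v → ¬ G.Adj u v → SatAt G u v)
    (hn : 10 ^ 22 ≤ Fintype.card W)
    (hE : 1000 * ∑ u, G.degree u ≤ 131001 * Fintype.card W) :
    ∃ t, Fintype.card W = 16 + 100 * t := by
  classical
  have hA : ∀ u v, u ≠ v → ¬ G.Adj u v → Alt G u v :=
    fun u v h1 h2 => alt_of_sat G hfree u v (hsat u v h1 h2)
  obtain ⟨S, U, cS, hSc, hU, hcomp⟩ := structure_of_sparse G hA hn hE
  obtain ⟨D, hD, dDD⟩ := four_comps G S U hU hcomp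
  have hbr : ∀ q, q ∉ S → Br G S q := by
    intro q hq
    by_cases h0 : q ∈ D 0
    · exact br_of_comp G hA S (D 1) cS (hD 1) q hq
        (Finset.disjoint_left.1 (dDD 0 1 (by decide)) h0)
    · exact br_of_comp G hA S (D 0) cS (hD 0) q hq h0
  have hS : ∀ x ∈ S, ∀ y, x ≠ y → G.Adj x y := by
    intro x hx y hxy
    by_cases hy : y ∈ S
    · exact hSc hx hy hxy
    · exact ((hbr y hy).1 x hx).symm
  set F : Finset (Finset W) := univ.filter
    (fun K => K.card = 100 ∧ G.IsClique (K : Set W) ∧ Disjoint S K) with hF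
  have hdisj : ∀ K ∈ F, ∀ K' ∈ F, K ≠ K' → Disjoint K K' := by
    intro K hK K' hK' hne
    obtain ⟨cK, hK, dK⟩ := (Finset.mem_filter.1 hK).2
    obtain ⟨cK', hK', dK'⟩ := (Finset.mem_filter.1 hK').2
    by_contra hnd
    have hint : (K ∩ K').Nonempty := Finset.not_disjoint_iff_nonempty_inter.1 hnd
    obtain ⟨w, hw⟩ := id hint
    obtain ⟨hw1, hw2⟩ := Finset.mem_inter.1 hw
    refine hfree (cont_of_two G S K K' D hS hK hK' (fun j => comp_clique G S _ (hD j)) dK dK'
      (fun j => (hD j).2.1) (fun j => ?_) (fun j => ?_) dDD cS cK cK' (fun j => (hD j).1) hne hint)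
    · rw [Finset.disjoint_left]
      intro v hv hv'
      have e1 := comp_eq G S (D j) K (hD j) hK cK dK v hv' hv
      have e2 := comp_eq G S (D j) K' (hD j) hK' cK' dK' w (e1 ▸ hw1) hw2
      exact hne (e1.trans e2.symm)
    · rw [Finset.disjoint_left]
      intro v hv hv'
      have e1 := comp_eq G S (D j) K' (hD j) hK' cK' dK' v hv' hv
      have e2 := comp_eq G S (D j) K (hD j) hK cK dK w (e1 ▸ hw2) hw1
      exact hne (e2.trans e1.symm)
  have hcover : F.biUnion id = univ \ S := by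
    ext q
    simp only [Finset.mem_biUnion, id, Finset.mem_sdiff, Finset.mem_univ, true_and]
    constructor
    · rintro ⟨K, hK, hq⟩ hqS
      exact Finset.disjoint_left.1 (Finset.mem_filter.1 hK).2.2.2 hqS hq
    · intro hq
      obtain ⟨-, K, cK, hqK, hK, dK⟩ := hbr q hq
      exact ⟨K, Finset.mem_filter.2 ⟨Finset.mem_univ _, cK, hK, dK⟩, hqK⟩
  have h1 : (F.biUnion id).card = F.card * 100 := by
    rw [Finset.card_biUnion (t := id) (fun K hK K' hK' hne => hdisj K hK K' hK' hne)]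
    rw [← smul_eq_mul, ← Finset.sum_const]
    exact Finset.sum_congr rfl (fun K hK => (Finset.mem_filter.1 hK).2.1)
  rw [hcover, Finset.card_sdiff_of_subset (Finset.subset_univ _), Finset.card_univ, cS] at h1
  exact ⟨F.card, by omega⟩

end Pool.Agent.Lib.MP_ec92e0_co
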