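import Mathlib

set_option autoImplicit false

namespace Pool.Agent.Lib.MP_ec92e0_co

open SimpleGraph

variable {W V : Type*}

/-- `G` contains `H` as a subgraph. -/
def Cont (H : SimpleGraph W) (G : SimpleGraph V) : Prop :=
  ∃ f : W → V, Function.Injective f ∧ ∀ a b, H.Adj a b → G.Adj (f a) (f b)

/-- `G + uv` contains `H`. -/
def Creates (H : SimpleGraph W) (G : SimpleGraph V) (u v : V) : Prop :=
  ∃ f : W → V, Function.Injective f ∧ ∀ a b, H.Adj a b →
    (G.Adj (f a) (f b) ∨ (f a = u ∧ f b = v) ∨ (f a = v ∧ f b = u))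

/-- `G` is `H`-saturated. -/
def Sat (H : SimpleGraph W) (G : SimpleGraph V) : Prop :=
  ¬ Cont H G ∧ ∀ u v, u ≠ v → ¬ G.Adj u v → Creates H G u v

/-- The side of `q` of the edge `pq`. -/
def Sd (H : SimpleGraph W) (p q : W) : Set W := {x | (H.deleteEdges {s(p, q)}).Reachable q x}

theorem Creates.symm {H : SimpleGraph W} {G : SimpleGraph V} {u v : V} (h : Creates H G u v) :
    Creates H G v u := by
  obtain ⟨f, hf, h⟩ := h
  exact ⟨f, hf, fun a b hab => by rcases h a b hab with h | h | h <;> tauto⟩

theorem sd_self (H : SimpleGraph W) (p q : W) : q ∈ Sd H p q := Reachable.refl _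

theorem sd_adj {H : SimpleGraph W} {p q a b : W} (hab : H.Adj a b) (hne : s(a, b) ≠ s(p, q))
    (ha : a ∈ Sd H p q) : b ∈ Sd H p q := by
  refine Reachable.trans ha (Adj.reachable ?_)
  simp only [deleteEdges_adj, Set.mem_singleton_iff]
  exact ⟨hab, hne⟩

theorem sd_disj {H : SimpleGraph W} (hH : H.IsAcyclic) {p q x : W} (hpq : H.Adj p q)
    (h1 : x ∈ Sd H p q) (h2 : x ∈ Sd H q p) : False := by
  have hb := isBridge_iff.mp (isAcyclic_iff_forall_adj_isBridge.mp hH hpq)
  have h2' : (H.deleteEdges {s(p, q)}).Reachable p x := by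
    have : s(q, p) = s(p, q) := Sym2.eq_swap
    simpa [Sd, this] using h2
  exact hb (h2'.trans (Reachable.symm h1))

theorem sd_cover {H : SimpleGraph W} (hH : H.Connected) (p q x : W) :
    x ∈ Sd H p q ∨ x ∈ Sd H q p := by
  obtain ⟨w⟩ := hH q x
  have key : ∀ {a b : W} (w : H.Walk a b), (a ∈ Sd H p q ∨ a ∈ Sd H q p) →
      (b ∈ Sd H p q ∨ b ∈ Sd H q p) := by
    intro a b w
    induction w with
    | nil => exact id
    | @cons a c b hac w ih =>
      intro ha
      apply ih
      by_cases he : s(a, c) = s(p, q)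
      · rcases Sym2.eq_iff.mp he with ⟨_, rfl⟩ | ⟨_, rfl⟩
        · exact Or.inl (sd_self _ _ _)
        · exact Or.inr (sd_self _ _ _)
      · rcases ha with ha | ha
        · exact Or.inl (sd_adj hac he ha)
        · exact Or.inr (sd_adj hac (by rw [Sym2.eq_swap (a := q)]; exact he) ha)
  exact key w (Or.inl (sd_self _ _ _))

theorem not_mem_sd {H : SimpleGraph W} (hH : H.IsAcyclic) {p q : W} (hpq : H.Adj p q) :
    p ∉ Sd H p q := fun h => sd_disj hH hpq h (sd_self _ _ _)

/-- A walk from the side of `q` to the side of `p` splits at the edge. -/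
theorem walk_split {H : SimpleGraph W} (hH : H.IsAcyclic) {p q : W} (hpq : H.Adj p q)
    {x y : W} (w : H.Walk x y) (hx : x ∈ Sd H p q) (hy : y ∉ Sd H p q) :
    ∃ (w1 : H.Walk x q) (w2 : H.Walk p y), w1.length + 1 + w2.length ≤ w.length := by
  induction w with
  | nil => exact absurd hx hy
  | @cons a c b hac w ih =>
    by_cases he : s(a, c) = s(p, q)
    · rcases Sym2.eq_iff.mp he with ⟨rfl, rfl⟩ | ⟨rfl, rfl⟩
      · exact absurd hx (not_mem_sd hH hpq)
      · exact ⟨Walk.nil, w, by simp [add_comm]⟩
    · obtain ⟨w1, w2, h⟩ := ih (sd_adj hac he hx) hy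
      exact ⟨Walk.cons hac w1, w2, by simp only [Walk.length_cons]; omega⟩

theorem two_le_length {H : SimpleGraph W} {x y : W} (w : H.Walk x y) (h1 : x ≠ y)
    (h2 : ¬ H.Adj x y) : 2 ≤ w.length := by
  cases w with
  | nil => exact absurd rfl h1
  | cons h w =>
    cases w with
    | nil => exact absurd h h2
    | cons h' w => simp

theorem exists_far {H : SimpleGraph W} (hH : H.IsAcyclic) {q a b : W} (hab : H.Adj a b)
    (ha : a ≠ q) (hb : b ≠ q) : (¬ H.Adj a q) ∨ (¬ H.Adj b q) := by
  by_contra hcon
  push Not at hcon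
  have hbr := isBridge_iff_forall_walk_mem_edges.mp (isAcyclic_iff_forall_adj_isBridge.mp hH hab)
    (Walk.cons hcon.1 (Walk.cons hcon.2.symm Walk.nil))
  simp only [Walk.edges_cons, Walk.edges_nil, List.mem_cons, Sym2.eq_iff, List.not_mem_nil,
    or_false] at hbr
  have := hab.ne
  rcases hbr with (h | h) | (h | h) <;> tauto

/-- In a tree of diameter at most four one side of every edge is a star at its root. -/
theorem star_side {H : SimpleGraph W} (hT : H.IsTree) (hd : H.ediam ≤ 4) {p q : W}
    (hpq : H.Adj p q) :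
    (∀ a ∈ Sd H p q, ∀ b ∈ Sd H p q, H.Adj a b → a = q ∨ b = q) ∨
    (∀ a ∈ Sd H q p, ∀ b ∈ Sd H q p, H.Adj a b → a = p ∨ b = p) := by
  by_contra hcon
  push Not at hcon
  obtain ⟨⟨a, ha, b, hb, hab, haq, hbq⟩, ⟨a', ha', b', hb', hab', hap, hbp⟩⟩ := hcon
  have h1 : ∃ x ∈ Sd H p q, x ≠ q ∧ ¬ H.Adj x q := by
    rcases exists_far hT.isAcyclic hab haq hbq with h | h
    · exact ⟨a, ha, haq, h⟩
    · exact ⟨b, hb, hbq, h⟩
  have h2 : ∃ y ∈ Sd H q p, y ≠ p ∧ ¬ H.Adj y p := by
    rcases exists_far hT.isAcyclic hab' hap hbp with h | h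
    · exact ⟨a', ha', hap, h⟩
    · exact ⟨b', hb', hbp, h⟩
  obtain ⟨x, hx, hxq, hxq'⟩ := h1
  obtain ⟨y, hy, hyp, hyp'⟩ := h2
  obtain ⟨w, hw⟩ := hT.connected.exists_walk_length_eq_edist x y
  have hle : (w.length : ℕ∞) ≤ 4 := hw ▸ (edist_le_ediam.trans hd)
  have hle' : w.length ≤ 4 := by exact_mod_cast hle
  obtain ⟨w1, w2, h⟩ := walk_split hT.isAcyclic hpq w hx
    (fun h => sd_disj hT.isAcyclic hpq h hy)
  have := two_le_length w1 hxq hxq'
  have := two_le_length w2 (Ne.symm hyp) (fun h => hyp' h.symm)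
  omega

/-- Greedy embedding of a tree into a set of large minimum degree. -/
theorem cont_of_minDeg [Fintype W] {H : SimpleGraph W} (hT : H.IsTree) (G : SimpleGraph V)
    (E : Finset V) (hE : E.Nonempty)
    (hdeg : ∀ v ∈ E, ∃ N : Finset V, Fintype.card W ≤ N.card ∧ ∀ w ∈ N, w ∈ E ∧ G.Adj v w) :
    Cont H G := by
  classical
  obtain ⟨r⟩ := hT.connected.nonempty
  obtain ⟨v0, hv0⟩ := hE
  have key : ∀ k, k + 1 ≤ Fintype.card W → ∃ (A : Finset W) (f : W → V), A.card = k + 1 ∧ r ∈ A ∧
      (∀ a ∈ A, ∃ w : H.Walk r a, ∀ x ∈ w.support, x ∈ A) ∧ Set.InjOn f A ∧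
      (∀ a ∈ A, f a ∈ E) ∧ ∀ a ∈ A, ∀ b ∈ A, H.Adj a b → G.Adj (f a) (f b) := by
    intro k
    induction k with
    | zero =>
      intro _
      refine ⟨{r}, fun _ => v0, by simp, by simp, ?_, by simp, by simp [hv0], ?_⟩
      · intro a ha
        rw [Finset.mem_singleton] at ha
        subst ha
        exact ⟨Walk.nil, by simp⟩
      · intro a ha b hb hab
        rw [Finset.mem_singleton] at ha hb
        subst ha hb
        exact absurd hab (H.loopless.irrefl _)
    | succ k ih =>
      intro hk
      obtain ⟨A, f, hA, hr, hconn, hinj, hfE, hadj⟩ := ih (by omega)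
      have hlt : A.card < (Finset.univ : Finset W).card := by
        rw [Finset.card_univ]; omega
      obtain ⟨x, -, hx⟩ := Finset.exists_mem_notMem_of_card_lt_card hlt
      obtain ⟨w⟩ := hT.connected r x
      obtain ⟨d, -, hd1, hd2⟩ := w.exists_boundary_dart (A : Set W) hr hx
      set a := d.fst with ha
      set b := d.snd with hb
      have hab : H.Adj a b := d.adj
      have haA : a ∈ A := hd1
      have hbA : b ∉ A := hd2
      have huniq : ∀ a' ∈ A, H.Adj a' b → a' = a := by
        intro a' ha' hab'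
        by_contra hne
        obtain ⟨w1, hw1⟩ := hconn a haA
        obtain ⟨w2, hw2⟩ := hconn a' ha'
        have hbr := isBridge_iff_forall_walk_mem_edges.mp
          (isAcyclic_iff_forall_adj_isBridge.mp hT.isAcyclic hab)
          ((w1.reverse.append w2).concat hab')
        rw [Walk.edges_concat, List.concat_eq_append, List.mem_append] at hbr
        rcases hbr with h | h
        · have := Walk.snd_mem_support_of_mem_edges _ h
          rw [Walk.mem_support_append_iff] at this
          rcases this with h | h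
          · rw [Walk.support_reverse, List.mem_reverse] at h
            exact hbA (hw1 _ h)
          · exact hbA (hw2 _ h)
        · simp only [List.mem_singleton, Sym2.eq_iff] at h
          rcases h with h | h
          · exact hne h.1.symm
          · exact hbA (h.1 ▸ haA)
      obtain ⟨N, hN, hN'⟩ := hdeg (f a) (hfE a haA)
      have hlt2 : (A.image f).card < N.card := lt_of_le_of_lt Finset.card_image_le (by omega)
      obtain ⟨y, hyN, hy⟩ := Finset.exists_mem_notMem_of_card_lt_card hlt2
      have hupd : ∀ z ∈ A, Function.update f b y z = f z := fun z hz =>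
        Function.update_of_ne (fun h : z = b => hbA (h ▸ hz)) _ _
      refine ⟨insert b A, Function.update f b y, by rw [Finset.card_insert_of_notMem hbA, hA],
        Finset.mem_insert_of_mem hr, ?_, ?_, ?_, ?_⟩
      · intro z hz
        rcases Finset.mem_insert.mp hz with rfl | hz
        · obtain ⟨w1, hw1⟩ := hconn a haA
          refine ⟨w1.concat hab, fun x hx => ?_⟩
          rw [Walk.support_concat, List.mem_append] at hx
          rcases hx with hx | hx
          · exact Finset.mem_insert_of_mem (hw1 _ hx)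
          · rw [List.mem_singleton] at hx
            exact hx ▸ Finset.mem_insert_self _ _
        · obtain ⟨w1, hw1⟩ := hconn z hz
          exact ⟨w1, fun x hx => Finset.mem_insert_of_mem (hw1 _ hx)⟩
      · intro z hz z' hz' hzz
        rw [Finset.coe_insert, Set.mem_insert_iff] at hz hz'
        rcases hz with rfl | hz <;> rcases hz' with rfl | hz'
        · rfl
        · rw [Function.update_self, hupd _ hz'] at hzz
          exact absurd (Finset.mem_image.mpr ⟨z', hz', hzz.symm⟩) hy
        · rw [Function.update_self, hupd _ hz] at hzz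
          exact absurd (Finset.mem_image.mpr ⟨z, hz, hzz⟩) hy
        · rw [hupd _ hz, hupd _ hz'] at hzz
          exact hinj hz hz' hzz
      · intro z hz
        rcases Finset.mem_insert.mp hz with rfl | hz
        · rw [Function.update_self]; exact (hN' y hyN).1
        · rw [hupd _ hz]; exact hfE z hz
      · intro z hz z' hz' hzz
        rcases Finset.mem_insert.mp hz with rfl | hz <;>
          rcases Finset.mem_insert.mp hz' with rfl | hz'
        · exact absurd hzz (H.loopless.irrefl _)
        · rw [Function.update_self, hupd _ hz', huniq _ hz' hzz.symm]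
          exact (hN' y hyN).2.symm
        · rw [Function.update_self, hupd _ hz, huniq _ hz hzz]
          exact (hN' y hyN).2
        · rw [hupd _ hz, hupd _ hz']
          exact hadj _ hz _ hz' hzz
  have hpos : 0 < Fintype.card W := Fintype.card_pos_iff.mpr ⟨r⟩
  obtain ⟨A, f, hA, -, -, hinj, -, hadj⟩ := key (Fintype.card W - 1) (by omega)
  have hAu : A = Finset.univ := Finset.eq_univ_of_card _ (by omega)
  subst hAu
  exact ⟨f, fun a b h => hinj (by simp) (by simp) h,
    fun a b h => hadj a (by simp) b (by simp) h⟩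

end Pool.Agent.Lib.MP_ec92e0_co
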