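import Pool.Agent.Lib.MP_ec92e0_co.Tree

set_option autoImplicit false

namespace Pool.Agent.Lib.MP_ec92e0_co

open SimpleGraph

variable {W V : Type*}

/-- Edges of `G` with both ends in `E`. -/
def ein (G : SimpleGraph V) (E : Finset V) : Set (Sym2 V) :=
  {e | e ∈ G.edgeSet ∧ ∀ x ∈ e, x ∈ E}

theorem ein_le [Fintype W] [Finite V] {H : SimpleGraph W} (hT : H.IsTree) (G : SimpleGraph V)
    (hG : ¬ Cont H G) (E : Finset V) : (ein G E).ncard ≤ Fintype.card W * E.card := by
  classical
  induction hn : E.card generalizing E with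
  | zero =>
    rw [Finset.card_eq_zero] at hn
    subst hn
    have : ein G ∅ = ∅ := by
      ext e
      induction e using Sym2.ind with
      | _ a b =>
        refine ⟨fun h => ?_, fun h => h.elim⟩
        exact absurd (h.2 a (by simp)) (by simp)
    simp [this]
  | succ n ih =>
    have hE : E.Nonempty := Finset.card_pos.mp (by omega)
    have : ∃ v ∈ E, (E.filter (G.Adj v)).card < Fintype.card W := by
      by_contra hcon
      push Not at hcon
      exact hG (cont_of_minDeg hT G E hE fun v hv =>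
        ⟨E.filter (G.Adj v), hcon v hv, fun w hw => Finset.mem_filter.mp hw⟩)
    obtain ⟨v, hv, hlt⟩ := this
    have h1 := ih (E.erase v) (by rw [Finset.card_erase_of_mem hv]; omega)
    have hsub : ein G E ⊆ ein G (E.erase v) ∪
        (((E.filter (G.Adj v)).image (fun w => s(v, w)) : Finset (Sym2 V)) : Set (Sym2 V)) := by
      intro e he
      induction e using Sym2.ind with
      | _ a b =>
        obtain ⟨hab, hE'⟩ := he
        have hab' : G.Adj a b := hab
        have ha : a ∈ E := hE' a (by simp)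
        have hb : b ∈ E := hE' b (by simp)
        by_cases h1 : a = v
        · subst h1
          right
          simp only [Finset.coe_image, Set.mem_image, Finset.mem_coe, Finset.mem_filter]
          exact ⟨b, ⟨hb, hab'⟩, rfl⟩
        · by_cases h2 : b = v
          · subst h2
            right
            simp only [Finset.coe_image, Set.mem_image, Finset.mem_coe, Finset.mem_filter]
            exact ⟨a, ⟨ha, hab'.symm⟩, Sym2.eq_swap⟩
          · left
            refine ⟨hab, fun x hx => ?_⟩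
            rcases Sym2.mem_iff.mp hx with rfl | rfl
            · exact Finset.mem_erase.mpr ⟨h1, ha⟩
            · exact Finset.mem_erase.mpr ⟨h2, hb⟩
    have h2 := (Set.ncard_le_ncard hsub (Set.toFinite _)).trans (Set.ncard_union_le _ _)
    rw [Set.ncard_coe_finset] at h2
    have h3 := Finset.card_image_le (s := E.filter (G.Adj v)) (f := fun w => s(v, w))
    nlinarith

/-- Completion to a saturated graph. -/
theorem exists_completion [Finite V] (H : SimpleGraph W) (G0 : SimpleGraph V) (h0 : ¬ Cont H G0) :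
    ∃ G : SimpleGraph V, Sat H G ∧
      ∀ u v, G.Adj u v → G0.Adj u v ∨ (u ≠ v ∧ ¬ G0.Adj u v ∧ ¬ Creates H G0 u v) := by
  obtain ⟨G, hle, hmax⟩ := Finite.exists_le_maximal (p := fun G : SimpleGraph V => ¬ Cont H G) h0
  refine ⟨G, ⟨hmax.prop, fun u v huv hadj => ?_⟩, fun u v hadj => ?_⟩
  · by_contra hcon
    have hfree : ¬ Cont H (G ⊔ edge u v) := by
      rintro ⟨f, hf, h⟩
      refine hcon ⟨f, hf, fun a b hab => ?_⟩
      have := h a b hab
      rw [sup_adj, edge_adj] at this
      tauto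
    have := hmax.le_of_ge hfree le_sup_left
    exact hadj (this (by rw [sup_adj, edge_adj]; tauto))
  · by_cases h : G0.Adj u v
    · exact Or.inl h
    · refine Or.inr ⟨hadj.ne, h, ?_⟩
      rintro ⟨f, hf, h'⟩
      refine hmax.prop ⟨f, hf, fun a b hab => ?_⟩
      rcases h' a b hab with h1 | ⟨h1, h2⟩ | ⟨h1, h2⟩
      · exact hle h1
      · rw [h1, h2]; exact hadj
      · rw [h1, h2]; exact hadj.symm

/-- The side of `q` embeds in `G` with root `u` and image inside `F`. -/
def Emb (H : SimpleGraph W) (G : SimpleGraph V) (p q : W) (u : V) (F : Set V) : Prop :=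
  ∃ f : W → V, f q = u ∧ Set.InjOn f (Sd H p q) ∧ (∀ a ∈ Sd H p q, f a ∈ F) ∧
    ∀ a ∈ Sd H p q, ∀ b ∈ Sd H p q, H.Adj a b → G.Adj (f a) (f b)

/-- The type of a vertex. -/
def typ (H : SimpleGraph W) (G : SimpleGraph V) (u : V) : Set (W × W) :=
  {x | H.Adj x.1 x.2 ∧ Emb H G x.1 x.2 u Set.univ}

/-- Compatibility of two vertices. -/
def Compat (H : SimpleGraph W) (G : SimpleGraph V) (u v : V) : Prop :=
  ∃ p q, (p, q) ∈ typ H G u ∧ (q, p) ∈ typ H G v

theorem emb_of_creates {H : SimpleGraph W} (hH : H.IsAcyclic) {G : SimpleGraph V} {u v : V}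
    {f : W → V} (hf : Function.Injective f) (h : ∀ a b, H.Adj a b →
      (G.Adj (f a) (f b) ∨ (f a = u ∧ f b = v) ∨ (f a = v ∧ f b = u)))
    {p q : W} (hpq : H.Adj p q) (hq : f q = u) (hp : f p = v) : Emb H G p q u Set.univ := by
  refine ⟨f, hq, hf.injOn, by simp, fun a ha b hb hab => ?_⟩
  rcases h a b hab with h1 | ⟨h1, h2⟩ | ⟨h1, h2⟩
  · exact h1
  · exact absurd (hf (h2.trans hp.symm) ▸ hb) (not_mem_sd hH hpq)
  · exact absurd (hf (h1.trans hp.symm) ▸ ha) (not_mem_sd hH hpq)

theorem compat_of_creates {H : SimpleGraph W} (hH : H.IsAcyclic) {G : SimpleGraph V}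
    (hG : ¬ Cont H G) {u v : V} (h : Creates H G u v) : Compat H G u v := by
  obtain ⟨f, hf, h⟩ := h
  have : ∃ p q, H.Adj p q ∧ f q = u ∧ f p = v := by
    by_contra hcon
    refine hG ⟨f, hf, fun a b hab => ?_⟩
    rcases h a b hab with h1 | ⟨h1, h2⟩ | ⟨h1, h2⟩
    · exact h1
    · exact absurd ⟨b, a, hab.symm, h1, h2⟩ hcon
    · exact absurd ⟨a, b, hab, h2, h1⟩ hcon
  obtain ⟨p, q, hpq, hq, hp⟩ := this
  refine ⟨p, q, ⟨hpq, emb_of_creates hH hf h hpq hq hp⟩, ⟨hpq.symm, ?_⟩⟩
  exact emb_of_creates hH hf (fun a b hab => by rcases h a b hab with h | h | h <;> tauto)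
    hpq.symm hp hq

theorem creates_of_emb {H : SimpleGraph W} (hT : H.IsTree) {G : SimpleGraph V} {u v : V}
    {p q : W} (hpq : H.Adj p q) {F F' : Set V} (hF : Disjoint F F')
    (h1 : Emb H G p q u F) (h2 : Emb H G q p v F') : Creates H G u v := by
  classical
  obtain ⟨f, hfq, hfi, hfF, hfa⟩ := h1
  obtain ⟨g, hgp, hgi, hgF, hga⟩ := h2
  have hc : ∀ a, a ∉ Sd H p q → a ∈ Sd H q p := fun a ha =>
    (sd_cover hT.connected p q a).resolve_left ha
  have hp : p ∉ Sd H p q := not_mem_sd hT.isAcyclic hpq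
  have hq : q ∈ Sd H p q := sd_self _ _ _
  refine ⟨fun a => if a ∈ Sd H p q then f a else g a, ?_, ?_⟩
  · intro a b hab
    by_cases ha : a ∈ Sd H p q <;> by_cases hb : b ∈ Sd H p q <;>
      simp only [ha, hb, if_true, if_false] at hab
    · exact hfi ha hb hab
    · exact absurd (hab ▸ hgF b (hc b hb)) (Set.disjoint_left.mp hF (hfF a ha))
    · exact absurd (hab ▸ hgF a (hc a ha)) (Set.disjoint_left.mp hF (hfF b hb))
    · exact hgi (hc a ha) (hc b hb) hab
  · intro a b hab
    by_cases he : s(a, b) = s(p, q)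
    · rcases Sym2.eq_iff.mp he with ⟨rfl, rfl⟩ | ⟨rfl, rfl⟩
      · simp [hp, hq, hfq, hgp]
      · simp [hp, hq, hfq, hgp]
    · by_cases ha : a ∈ Sd H p q
      · have hb := sd_adj hab he ha
        simp only [ha, hb, if_true]
        exact Or.inl (hfa a ha b hb hab)
      · have hb : b ∉ Sd H p q := fun hb =>
          ha (sd_adj hab.symm (by rw [Sym2.eq_swap]; exact he) hb)
        simp only [ha, hb, if_false]
        exact Or.inl (hga a (hc a ha) b (hc b hb) hab)

theorem exists_rooted (S : Set W) (F : Set V) (hF : F.Finite) (hS : S.Finite)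
    (hcard : S.ncard ≤ F.ncard)
    {r : W} (hr : r ∈ S) {y : V} (hy : y ∈ F) :
    ∃ f : W → V, f r = y ∧ Set.InjOn f S ∧ ∀ a ∈ S, f a ∈ F := by
  classical
  have : Nonempty V := ⟨y⟩
  obtain ⟨g, hg, hgi⟩ := hS.exists_injOn_of_encard_le (t := F)
    (by rw [← hS.cast_ncard_eq, ← hF.cast_ncard_eq]; exact_mod_cast hcard)
  refine ⟨fun a => Equiv.swap (g r) y (g a), by simp,
    (Equiv.swap (g r) y).injective.comp_injOn hgi, fun a ha => ?_⟩
  simp only [Equiv.swap_apply_def]
  split_ifs
  · exact hy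
  · exact hg hr
  · exact hg ha

/-- The class of a vertex: all vertices of the same type. -/
def cls (H : SimpleGraph W) (G : SimpleGraph V) (u : V) : Set V := {x | typ H G x = typ H G u}

theorem self_compat [Fintype W] [Finite V] {H : SimpleGraph W} (hH : H.IsAcyclic)
    {G : SimpleGraph V} (hG : Sat H G) {u : V} (hu : Fintype.card W < (cls H G u).ncard) :
    Compat H G u u := by
  have : ∃ x ∈ cls H G u, ∃ y ∈ cls H G u, x ≠ y ∧ ¬ G.Adj x y := by
    by_contra hcon
    push Not at hcon
    have : Nonempty V := ⟨u⟩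
    obtain ⟨g, hg, hgi⟩ := (Set.finite_univ (α := W)).exists_injOn_of_encard_le (t := cls H G u)
      (by
        rw [← (Set.finite_univ (α := W)).cast_ncard_eq, ← (Set.toFinite _).cast_ncard_eq,
          Set.ncard_univ, Nat.card_eq_fintype_card]
        exact_mod_cast hu.le)
    have hinj : Function.Injective g := Set.injOn_univ.mp hgi
    exact hG.1 ⟨g, hinj, fun a b hab =>
      hcon _ (hg (Set.mem_univ a)) _ (hg (Set.mem_univ b)) (hinj.ne hab.ne)⟩
  obtain ⟨x, hx, y, hy, hxy, hadj⟩ := this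
  obtain ⟨p, q, h1, h2⟩ := compat_of_creates hH hG.1 (hG.2 x y hxy hadj)
  exact ⟨p, q, hx ▸ h1, hy ▸ h2⟩

theorem emb_star [Fintype W] [Finite V] {H : SimpleGraph W} {G : SimpleGraph V} {p q : W}
    (hs : ∀ a ∈ Sd H p q, ∀ b ∈ Sd H p q, H.Adj a b → a = q ∨ b = q) {v : V} {C : Set V}
    (hC : Fintype.card W ≤ C.ncard) (hv : ∀ x ∈ C, x ≠ v → G.Adj v x) :
    Emb H G p q v Set.univ := by
  obtain ⟨f, hfq, hfi, hfF⟩ := exists_rooted (Sd H p q) (insert v C) (Set.toFinite _)
    (Set.toFinite _) (by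
      refine le_trans ?_ (hC.trans (Set.ncard_le_ncard (Set.subset_insert _ _)))
      rw [← Nat.card_eq_fintype_card]
      exact Set.ncard_le_card _) (sd_self H p q) (Set.mem_insert _ _)
  have key : ∀ b ∈ Sd H p q, b ≠ q → G.Adj v (f b) := by
    intro b hb hbq
    have hne : f b ≠ v := fun h => hbq (hfi hb (sd_self _ _ _) (h.trans hfq.symm))
    exact hv _ ((hfF b hb).resolve_left hne) hne
  refine ⟨f, hfq, hfi, by simp, fun a ha b hb hab => ?_⟩
  rcases hs a ha b hb hab with rfl | rfl
  · rw [hfq]; exact key b hb hab.ne'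
  · rw [hfq]; exact (key a ha hab.ne).symm

/-- A vertex in a large class is compatible with every vertex. -/
theorem compat_all [Fintype W] [Finite V] {H : SimpleGraph W} (hT : H.IsTree) (hd : H.ediam ≤ 4)
    {G : SimpleGraph V} (hG : Sat H G) {u : V} (hu : Fintype.card W < (cls H G u).ncard) (v : V) :
    Compat H G u v := by
  by_cases h : ∃ x ∈ cls H G u, x ≠ v ∧ ¬ G.Adj v x
  · obtain ⟨x, hx, hxv, hadj⟩ := h
    obtain ⟨p, q, h1, h2⟩ := compat_of_creates hT.isAcyclic hG.1
      (hG.2 x v hxv (fun h => hadj h.symm))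
    exact ⟨p, q, hx ▸ h1, h2⟩
  · push Not at h
    obtain ⟨p, q, h1, h2⟩ := self_compat hT.isAcyclic hG hu
    rcases star_side hT hd h1.1 with hs | hs
    · exact ⟨q, p, h2, h1.1, emb_star hs hu.le h⟩
    · exact ⟨p, q, h1, h2.1, emb_star hs hu.le h⟩

/-- Few vertices lie in small classes. -/
theorem small_card [Fintype W] [Fintype V] (H : SimpleGraph W) (G : SimpleGraph V) :
    {u | (cls H G u).ncard ≤ Fintype.card W}.ncard ≤
      Fintype.card W * 2 ^ (Fintype.card W * Fintype.card W) := by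
  classical
  rw [Set.ncard_eq_toFinset_card']
  have := Finset.card_le_mul_card_image_of_maps_to
    (s := {u | (cls H G u).ncard ≤ Fintype.card W}.toFinset)
    (t := (Finset.univ : Finset (Set (W × W)))) (f := typ H G) (fun _ _ => Finset.mem_univ _)
    (Fintype.card W) (by
      intro b _
      by_cases hb : ∃ u, (cls H G u).ncard ≤ Fintype.card W ∧ typ H G u = b
      · obtain ⟨u, hu, rfl⟩ := hb
        refine le_trans ?_ hu
        rw [← Set.ncard_coe_finset]
        refine Set.ncard_le_ncard (fun x hx => ?_)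
        simp only [Finset.coe_filter, Set.mem_ofPred_eq] at hx
        exact hx.2
      · rw [Finset.card_eq_zero.mpr]
        · exact Nat.zero_le _
        · rw [Finset.filter_eq_empty_iff]
          intro x hx h
          exact hb ⟨x, by simpa using hx, h⟩)
  simpa [Fintype.card_set] using this

end Pool.Agent.Lib.MP_ec92e0_co
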